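import Pool.Agent.Lib.MP_b2ebfc_lc.Values

/-!
# Assembly of the main theorem from the module statements
-/

set_option autoImplicit false

namespace Pool.Agent.Lib.MP_b2ebfc_lc

open Finset

/-- The core: from the context after `constP` to the output. -/
theorem core_value (hCan : CancelStatement) (hG : GramStatement) (hA : App1Statement)
    (hB : BoundStatement) (hD : DigitsStatement) (hK : KronStatement)
    (h1P : App1PStatement) (h2P : App2PStatement) (hF : FinalPStatement)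
    (w n a b k u₀ : ℕ) (M : Fin a → Fin b → ℤ) (s : St) (c : ℤ) (hw : w = wordLen n)
    (hctx : Ctx n a b M s) (h5 : s.r 5 = k) (h17 : s.r 17 = k + 1) (h18 : s.r 18 = n + 1)
    (h6 : s.r 6 = u₀) (hu₀ : u₀ ≤ a) (hk1 : 1 ≤ k) (hka : k ≤ a) (hab : a ≤ b)
    (h7 : ∀ i : ℕ, i ≤ (b + 1) * (b + 1) → s.m 7 i = zval n ^ i)
    (hbin : ∀ i j : ℕ, i ≤ n → j ≤ n → s.m 6 ((i : ℤ) * (n + 1) + j) = (i.choose j : ℤ))
    (h14 : ∀ r : ℕ, s.m 14 r = 0) (h15 : ∀ r : ℕ, s.m 15 r = 0) (h18' : ∀ r : ℕ, s.m 18 r = 0)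
    (hc : pairSum M k = 2 * c) (hc0 : 0 ≤ c) (hcw : c < 2 ^ w) :
    (finalP.run w (app2P.run w (app1P.run w s))).r 2 = c := by
  have hbn : b ≤ n := by have := hctx.hab; omega
  have hzp : 0 < zval n := zval_pos n
  have hzw : zval n ^ ((b + 1) * (b + 1)) ≤ 2 ^ w := hw ▸ zval_pow_le n b hbn
  -- frames
  have f1r : ∀ j, app1P.wrR j = false → (app1P.run w s).r j = s.r j :=
    fun j hj => Prog.run_r w app1P j hj s
  have f1m : ∀ j, app1P.wrA j = false → (app1P.run w s).m j = s.m j :=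
    fun j hj => Prog.run_m w app1P j hj s
  obtain ⟨s1, hs1⟩ : ∃ s1, s1 = app1P.run w s := ⟨_, rfl⟩
  rw [← hs1] at f1r f1m ⊢
  have hctx1 : Ctx n a b M s1 := by
    refine ⟨?_, ?_, hctx.hab, hctx.hb1, ?_, ?_, ?_, ?_, ?_, ?_, ?_, hctx.hM01, ?_, ?_⟩
    · rw [f1r 3 rfl]; exact hctx.ha
    · rw [f1r 4 rfl]; exact hctx.hb
    · rw [f1r 7 rfl]; exact hctx.hz
    · rw [f1r 12 rfl]; exact hctx.ht
    · rw [f1r 10 rfl]; exact hctx.h10
    · rw [f1r 11 rfl]; exact hctx.h11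
    · rw [f1r 13 rfl]; exact hctx.h13
    · rw [f1r 15 rfl]; exact hctx.h15
    · rw [f1m 3 rfl]; exact hctx.hM
    · rw [f1m 4 rfl]; exact hctx.hP2
    · rw [f1m 5 rfl]; exact hctx.hP3
  have f2r : ∀ j, app2P.wrR j = false → (app2P.run w s1).r j = s1.r j :=
    fun j hj => Prog.run_r w app2P j hj s1
  have f2m : ∀ j, app2P.wrA j = false → (app2P.run w s1).m j = s1.m j :=
    fun j hj => Prog.run_m w app2P j hj s1
  obtain ⟨s2, hs2⟩ : ∃ s2, s2 = app2P.run w s1 := ⟨_, rfl⟩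
  rw [← hs2] at f2r f2m ⊢
  have hctx2 : Ctx n a b M s2 := by
    refine ⟨?_, ?_, hctx.hab, hctx.hb1, ?_, ?_, ?_, ?_, ?_, ?_, ?_, hctx.hM01, ?_, ?_⟩
    · rw [f2r 3 rfl]; exact hctx1.ha
    · rw [f2r 4 rfl]; exact hctx1.hb
    · rw [f2r 7 rfl]; exact hctx1.hz
    · rw [f2r 12 rfl]; exact hctx1.ht
    · rw [f2r 10 rfl]; exact hctx1.h10
    · rw [f2r 11 rfl]; exact hctx1.h11
    · rw [f2r 13 rfl]; exact hctx1.h13
    · rw [f2r 15 rfl]; exact hctx1.h15
    · rw [f2m 3 rfl]; exact hctx1.hM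
    · rw [f2m 4 rfl]; exact hctx1.hP2
    · rw [f2m 5 rfl]; exact hctx1.hP3
  have h18s1 : ∀ r : ℕ, s1.m 18 r = 0 := by intro r; rw [f1m 18 rfl]; exact h18' r
  -- values of the accumulators
  have v14 : ∀ r ≤ u₀, s2.m 14 r =
      ∑ h ∈ range ((b + 1) * (b + 1)), cI M r True h * zval n ^ h := by
    intro r hr
    rw [f2m 14 rfl]
    have h := h1P w n a b u₀ M s hw hctx h6 hu₀ h14 h15 r hr
    rw [← hs1] at h
    have hd := digits' hD (zval n) hzp ((b + 1) * (b + 1)) (cI M r True)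
      (fun i hi => (cI_bounds hB hctx.hab M hctx.hM01 r True i hi).1)
      (fun i hi => (cI_bounds hB hctx.hab M hctx.hM01 r True i hi).2)
    refine word_eq w _ _ h.2.2.1.1 h.2.2.1.2 hd.2.1 (lt_of_lt_of_le hd.2.2 hzw) ?_
    rw [h.1, ← acc1_eq hK M r True (zval n)]
    simp only [iff_true]
  have v15 : ∀ r ≤ u₀, s2.m 15 r =
      ∑ h ∈ range ((b + 1) * (b + 1)), cI M r False h * zval n ^ h := by
    intro r hr
    rw [f2m 15 rfl]
    have h := h1P w n a b u₀ M s hw hctx h6 hu₀ h14 h15 r hr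
    rw [← hs1] at h
    have hd := digits' hD (zval n) hzp ((b + 1) * (b + 1)) (cI M r False)
      (fun i hi => (cI_bounds hB hctx.hab M hctx.hM01 r False i hi).1)
      (fun i hi => (cI_bounds hB hctx.hab M hctx.hM01 r False i hi).2)
    refine word_eq w _ _ h.2.2.2.1 h.2.2.2.2 hd.2.1 (lt_of_lt_of_le hd.2.2 hzw) ?_
    rw [h.2.1, ← acc1_eq hK M r False (zval n)]
    simp only [iff_false]
  have v18 : ∀ u, u₀ < u → u ≤ k → s2.m 18 u =
      ∑ h ∈ range ((b + 1) * (b + 1)), cII M u h * zval n ^ h := by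
    intro u hu1 hu2
    have h := h2P w n a b u₀ k M s1 hw hctx1 (by rw [f1r 6 rfl]; exact h6)
      (by rw [f1r 5 rfl]; exact h5) h18s1 u hu1 hu2
    rw [← hs2] at h
    have hd := digits' hD (zval n) hzp ((b + 1) * (b + 1)) (cII M u)
      (fun i hi => (cII_bounds hB hctx.hab M hctx.hM01 u i hi).1)
      (fun i hi => (cII_bounds hB hctx.hab M hctx.hM01 u i hi).2)
    refine word_eq w _ _ h.2.1 h.2.2 hd.2.1 (lt_of_lt_of_le hd.2.2 hzw) ?_
    rw [h.1, ← acc2_eq hK M u (zval n)]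
  have hidx : ∀ j u : ℕ, j ≤ b → u ≤ b → (b + 1) * j + u < (b + 1) * (b + 1) := by
    intro j u hj hu
    calc (b + 1) * j + u ≤ (b + 1) * b + b := Nat.add_le_add (Nat.mul_le_mul_left _ hj) hu
      _ < (b + 1) * (b + 1) := by nlinarith
  refine hF w n a b k u₀ M s2 (fun u => bigN M (k - u) u) c hw hctx2 ?_ ?_ ?_ ?_ hk1 hka hab ?_
    ?_ ?_ ?_ ?_ hc0 hcw
  · rw [f2r 5 rfl, f1r 5 rfl]; exact h5
  · rw [f2r 17 rfl, f1r 17 rfl]; exact h17
  · rw [f2r 18 rfl, f1r 18 rfl]; exact h18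
  · rw [f2r 6 rfl, f1r 6 rfl]; exact h6
  · intro i hi
    rw [f2m 7 rfl, f1m 7 rfl]; exact h7 i hi
  · intro i j hi hj
    rw [f2m 6 rfl, f1m 6 rfl]; exact hbin i j hi hj
  · intro u hu1 hu2
    rw [v18 u hu1 hu2]
    have hd := digits' hD (zval n) hzp ((b + 1) * (b + 1)) (cII M u)
      (fun i hi => (cII_bounds hB hctx.hab M hctx.hM01 u i hi).1)
      (fun i hi => (cII_bounds hB hctx.hab M hctx.hM01 u i hi).2)
    rw [hd.1 ((b + 1) * (k - u)) (by simpa using hidx (k - u) 0 (by omega) (by omega))]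
    exact bigN_of_cII hG M (k - u) u
  · intro u hu1 hu2
    have h3 : ∀ r ∈ range (u + 1),
        (((a - (k - u) - r).choose (u - r) : ℕ) : ℤ) *
        ((s2.m 14 r / zval n ^ ((b + 1) * (k - u) + u)) % zval n -
          (s2.m 15 r / zval n ^ ((b + 1) * (k - u) + u)) % zval n) =
        (((a - (k - u) - r).choose (u - r) : ℕ) : ℤ) *
        (cI M r True ((b + 1) * (k - u) + u) - cI M r False ((b + 1) * (k - u) + u)) := by
      intro r hr
      have hr' : r ≤ u₀ := by have := Finset.mem_range.mp hr; omega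
      rw [v14 r hr', v15 r hr']
      have hd := digits' hD (zval n) hzp ((b + 1) * (b + 1)) (cI M r True)
        (fun i hi => (cI_bounds hB hctx.hab M hctx.hM01 r True i hi).1)
        (fun i hi => (cI_bounds hB hctx.hab M hctx.hM01 r True i hi).2)
      have hd' := digits' hD (zval n) hzp ((b + 1) * (b + 1)) (cI M r False)
        (fun i hi => (cI_bounds hB hctx.hab M hctx.hM01 r False i hi).1)
        (fun i hi => (cI_bounds hB hctx.hab M hctx.hM01 r False i hi).2)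
      have hi := hidx (k - u) u (by omega) (by omega)
      rw [hd.1 _ hi, hd'.1 _ hi]
    rw [Finset.sum_congr rfl h3]
    exact bigN_of_cI hA M (k - u) u (by omega) (by omega)
  · rw [hCan (Fin a) (Fin b) M k hk1, hc]
    ring

end Pool.Agent.Lib.MP_b2ebfc_lc
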