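import Pool.Agent.Lib.MP_b2ebfc_lc.Lang

/-!
# Base definitions and the statements of the mathematical modules

`α`, `β` are the two parts of the bipartite graph, `M : α → β → ℤ` its biadjacency matrix.
-/

set_option autoImplicit false

namespace Pool.Agent.Lib.MP_b2ebfc_lc

open Finset

/-- The permanent of the submatrix with rows `U` and columns `W` (0 if the sizes differ). -/
noncomputable def perm {α β R : Type*} [DecidableEq α] [DecidableEq β] [CommRing R]
    (M : α → β → R) (U : Finset α) (W : Finset β) : R :=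
  ∑ f : (U ≃ W), ∏ x : U, M x (f x)

/-- The square of the determinant of the submatrix with rows `S` and columns `T`, as a sum over
pairs of bijections (0 if the sizes differ). -/
noncomputable def dsq {α β R : Type*} [DecidableEq α] [DecidableEq β] [CommRing R]
    (M : α → β → R) (S : Finset α) (T : Finset β) : R :=
  ∑ σ : (S ≃ T), ∑ τ : (S ≃ T), ((Equiv.Perm.sign (σ.trans τ.symm) : ℤ) : R) *
    ((∏ x : S, M x (σ x)) * ∏ x : S, M x (τ x))

/-- The Gram matrix of the columns, restricted to the rows in `Q`. -/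
def gram {α β R : Type*} [CommRing R] (M : α → β → R) (Q : Finset α) (x y : β) : R :=
  ∑ i ∈ Q, M i x * M i y

/-- The principal minor of `K` on `T`. -/
noncomputable def minor {β R : Type*} [DecidableEq β] [CommRing R]
    (K : β → β → R) (T : Finset β) : R :=
  (Matrix.of fun x y : T => K x y).det

/-- `N(j,u)`: the sum over disjoint `S, U ⊆ α`, disjoint `T, W ⊆ β`, `|S| = |T| = j`,
`|U| = |W| = u`, of `det(M[S,T])² per(M[U,W])²`. -/
noncomputable def bigN {α β R : Type*} [Fintype α] [DecidableEq α] [Fintype β] [DecidableEq β]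
    [CommRing R] (M : α → β → R) (j u : ℕ) : R :=
  ∑ U ∈ powersetCard u (univ : Finset α), ∑ W ∈ powersetCard u (univ : Finset β),
    perm M U W ^ 2 * ∑ S ∈ powersetCard j Uᶜ, ∑ T ∈ powersetCard j Wᶜ, dsq M S T

/-- The sum over `A' ⊆ α`, `B' ⊆ β` with `k` elements each and over all pairs `(σ, τ)` of
bijections `A' → B'` for which `τ⁻¹ σ` is one single cycle. -/
noncomputable def pairSum {α β R : Type*} [Fintype α] [DecidableEq α] [Fintype β] [DecidableEq β]
    [CommRing R] (M : α → β → R) (k : ℕ) : R := by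
  classical exact
  ∑ A' ∈ powersetCard k (univ : Finset α), ∑ B' ∈ powersetCard k (univ : Finset β),
    ∑ σ : (A' ≃ B'), ∑ τ : (A' ≃ B'),
      if (∀ x y : A', Equiv.Perm.SameCycle (σ.trans τ.symm) x y) then
        ((∏ x : A', M x (σ x)) * ∏ x : A', M x (τ x)) else 0

/-- CANCEL. Colouring the cycles with the colours det and per cancels all pairs with two or more cycles. -/
def CancelStatement : Prop :=
  ∀ (α β : Type) [Fintype α] [DecidableEq α] [Fintype β] [DecidableEq β] (M : α → β → ℤ) (k : ℕ),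
    1 ≤ k → ∑ u ∈ range (k + 1), (-1 : ℤ) ^ (k - u) * (u : ℤ) * bigN M (k - u) u =
      (k : ℤ) * pairSum M k

/-- CYCLES. The pairs count the cycles of length `2k`, each twice. -/
def CyclesStatement : Prop :=
  ∀ (α β V : Type) [Fintype α] [DecidableEq α] [Fintype β] [DecidableEq β] [Fintype V]
    [DecidableEq V] (G : SimpleGraph V) [DecidableRel G.Adj] (e : α ⊕ β ≃ V),
    (∀ i i' : α, ¬ G.Adj (e (Sum.inl i)) (e (Sum.inl i'))) →
    (∀ l l' : β, ¬ G.Adj (e (Sum.inr l)) (e (Sum.inr l'))) →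
    ∀ k : ℕ, 2 ≤ k →
      pairSum (fun i l => if G.Adj (e (Sum.inl i)) (e (Sum.inr l)) then (1 : ℤ) else 0) k =
        2 * (G.copyCount (SimpleGraph.cycleGraph (2 * k)) : ℤ)

/-- ODD. A 2-colourable graph has no odd cycles. -/
def OddStatement : Prop :=
  ∀ (V : Type) [Fintype V] (G : SimpleGraph V), G.Colorable 2 →
    ∀ l : ℕ, 3 ≤ l → Odd l → G.copyCount (SimpleGraph.cycleGraph l) = 0

/-- GRAM. Cauchy-Binet for the principal minors of the Gram matrix. -/
def GramStatement : Prop :=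
  ∀ (α β : Type) [Fintype α] [DecidableEq α] [Fintype β] [DecidableEq β] (M : α → β → ℤ)
    (Q : Finset α) (T : Finset β),
    minor (gram M Q) T = ∑ S ∈ powersetCard T.card Q, dsq M S T ∧ 0 ≤ minor (gram M Q) T

/-- DETEXP. Expansion of `det (diag d + t C K C)` by principal minors. -/
def DetExpStatement : Prop :=
  ∀ (β R : Type) [Fintype β] [DecidableEq β] [CommRing R] (d c : β → R) (t : R) (K : β → β → R),
    (Matrix.of fun x y : β => (if x = y then d x else 0) + t * (c x * c y * K x y)).det =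
      ∑ T : Finset β, (∏ x ∈ Tᶜ, d x) * (∏ x ∈ T, c x ^ 2) * t ^ T.card * minor K T

/-- RYSER. Ryser's formula. -/
def RyserStatement : Prop :=
  ∀ (α β : Type) [Fintype α] [DecidableEq α] [Fintype β] [DecidableEq β] (M : α → β → ℤ)
    (U : Finset α) (W : Finset β), U.card = W.card →
    perm M U W = ∑ R ∈ U.powerset, (-1 : ℤ) ^ (U.card - R.card) * ∏ w ∈ W, ∑ i ∈ R, M i w

/-- The weight of `(R, R')` in approach I: the coefficient of `t^j z^u` of
`det (diag (1 + z c_R c_{R'}) + t K_Q)`, `Q` the complement of `R ∪ R'`. -/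
noncomputable def coefI {α β : Type} [Fintype α] [DecidableEq α] [Fintype β] [DecidableEq β]
    (M : α → β → ℤ) (P P' : Finset α) (j u : ℕ) : ℤ :=
  ∑ T ∈ powersetCard j (univ : Finset β), ∑ W ∈ powersetCard u Tᶜ,
    (∏ w ∈ W, (∑ i ∈ P, M i w) * (∑ i ∈ P', M i w)) * minor (gram M (P ∪ P')ᶜ) T

/-- APP1. The identity of approach I. -/
def App1Statement : Prop :=
  ∀ (α β : Type) [Fintype α] [DecidableEq α] [Fintype β] [DecidableEq β] (M : α → β → ℤ)
    (j u : ℕ), j + u ≤ Fintype.card α →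
    bigN M j u = ∑ P : Finset α, ∑ P' : Finset α,
      if (P ∪ P').card ≤ u then
        (-1 : ℤ) ^ (P.card + P'.card) *
          ((Fintype.card α - j - (P ∪ P').card).choose (u - (P ∪ P').card) : ℤ) * coefI M P P' j u
      else 0

/-- The weight of `(U, W)` in approach II: the coefficient of `t^j` of
`det ((1 + t K_Q) restricted to the complement of W)`, `Q` the complement of `U`. -/
noncomputable def coefII {α β : Type} [Fintype α] [DecidableEq α] [Fintype β] [DecidableEq β]
    (M : α → β → ℤ) (U : Finset α) (W : Finset β) (j : ℕ) : ℤ :=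
  ∑ T ∈ powersetCard j Wᶜ, minor (gram M Uᶜ) T

/-- PERMREC. The recursion for the permanents. -/
def PermRecStatement : Prop :=
  ∀ (α β : Type) [DecidableEq α] [DecidableEq β] (R : Type) [CommRing R] (M : α → β → R),
    perm M ∅ ∅ = 1 ∧ (∀ W : Finset β, W.Nonempty → perm M ∅ W = 0) ∧
    ∀ (U : Finset α) (i : α) (W : Finset β), i ∉ U →
      perm M (insert i U) W = ∑ w ∈ W, M i w * perm M U (W.erase w)

/-- One step of Bird's algorithm, `F ↦ μ(F) X`. -/
def birdStep {b : ℕ} {R : Type*} [CommRing R] (X F : Fin b → Fin b → R) (i j : Fin b) : R :=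
  ∑ l : Fin b, (if i < l then F i l else if l < i then 0 else
    -(∑ m : Fin b, if i < m then F m m else 0)) * X l j

/-- BIRD. Bird's division-free algorithm for the determinant. -/
def BirdStatement : Prop :=
  ∀ (R : Type) [CommRing R] (b : ℕ) (X : Fin (b + 1) → Fin (b + 1) → R),
    ((birdStep X)^[b] X) 0 0 = (-1) ^ b * (Matrix.of X).det

/-- The set coded by the bits of `Z`. -/
def maskSet (a Z : ℕ) : Finset (Fin a) := univ.filter fun i => (Z / 2 ^ (i : ℕ)) % 2 = 1

/-- The pair `(R, R')` with union `maskSet a Z` coded by the ternary digits of `c`: the digit that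
belongs to `i` is 0 if `i` is only in `R`, 1 if `i` is only in `R'`, 2 if `i` is in both. -/
def ternFst (a Z c : ℕ) : Finset (Fin a) :=
  (maskSet a Z).filter fun i =>
    (c / 3 ^ ((maskSet a Z).filter (fun h => h < i)).card) % 3 ≠ 1

@[inherit_doc ternFst]
def ternSnd (a Z c : ℕ) : Finset (Fin a) :=
  (maskSet a Z).filter fun i =>
    (c / 3 ^ ((maskSet a Z).filter (fun h => h < i)).card) % 3 ≠ 0

/-- MASK. Sums over masks. -/
def MaskStatement : Prop :=
  ∀ (a : ℕ), (∀ (g : Finset (Fin a) → ℤ),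
      ∑ Z ∈ range (2 ^ a), g (maskSet a Z) = ∑ Z : Finset (Fin a), g Z) ∧
    (∀ (Z : ℕ) (g : Finset (Fin a) → Finset (Fin a) → ℤ),
      ∑ c ∈ range (3 ^ (maskSet a Z).card), g (ternFst a Z c) (ternSnd a Z c) =
        ∑ P : Finset (Fin a), ∑ P' : Finset (Fin a), if P ∪ P' = maskSet a Z then g P P' else 0) ∧
    (∀ (Z : ℕ) (i : Fin a), Z < 2 ^ a → i ∈ maskSet a Z →
      2 ^ (i : ℕ) ≤ Z ∧ Z - 2 ^ (i : ℕ) < 2 ^ a ∧
        maskSet a (Z - 2 ^ (i : ℕ)) = (maskSet a Z).erase i) ∧
    (∀ (Z : ℕ) (i : Fin a), maskSet a (Z % 2 ^ (i : ℕ)) = (maskSet a Z).filter fun h => h < i)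

/-- BOUND. The coefficients fit into `8 (n + 2)²` bits (also after summation). -/
def BoundStatement : Prop :=
  ∀ (α β : Type) [Fintype α] [DecidableEq α] [Fintype β] [DecidableEq β] (M : α → β → ℤ),
    (∀ i l, M i l = 0 ∨ M i l = 1) →
    (∀ P P' j u, 0 ≤ coefI M P P' j u) ∧ (∀ U W j, 0 ≤ coefII M U W j) ∧
    (∑ P : Finset α, ∑ P' : Finset α, ∑ j ∈ range (Fintype.card β + 1),
      ∑ u ∈ range (Fintype.card β + 1), coefI M P P' j u <
        2 ^ (8 * (Fintype.card α + Fintype.card β + 2) ^ 2)) ∧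
    (∑ U : Finset α, ∑ W : Finset β, ∑ j ∈ range (Fintype.card β + 1),
      perm M U W ^ 2 * coefII M U W j < 2 ^ (8 * (Fintype.card α + Fintype.card β + 2) ^ 2))

/-- DIGITS. Reading off the digits of a sum of powers. -/
def DigitsStatement : Prop :=
  ∀ (z : ℤ) (m : ℕ) (c : ℕ → ℤ), (∀ i, 0 ≤ c i) → (∀ i, c i < z) →
    (∀ i < m, ((∑ h ∈ range m, c h * z ^ h) / z ^ i) % z = c i) ∧
    0 ≤ ∑ h ∈ range m, c h * z ^ h ∧ ∑ h ∈ range m, c h * z ^ h < z ^ m

/-- COUNT. The numbers of iterations. -/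
def CountStatement : Prop :=
  (∀ a b : ℕ, a ≤ b →
    (∑ r ∈ range (5 * a / 8 + 1), (a.choose r * 3 ^ r : ℕ) : ℝ) ≤ (1.97 : ℝ) ^ (a + b)) ∧
  (∀ a b : ℕ, 13 * a < 12 * b → (4 : ℝ) ^ a ≤ (1.97 : ℝ) ^ (a + b)) ∧
  (∀ a b : ℕ, 12 * b ≤ 13 * a →
    (∑ r ∈ Ioc (5 * a / 8) a, (a.choose r : ℝ)) * 2 ^ b ≤ (1.97 : ℝ) ^ (a + b))

end Pool.Agent.Lib.MP_b2ebfc_lc
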