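import Pool.Agent.Lib.MP_b2ebfc_lc.Lemmas

/-!
# The bit cost is bounded by the number of operations times a polynomial
-/

set_option autoImplicit false

namespace Pool.Agent.Lib.MP_b2ebfc_lc

open Finset

/-- All sums and loops are bounded by registers, the numbers that occur in the program are at
most `N` in absolute value. -/
def Expr.smp (N : ℕ) : Expr → Bool
  | .const c => decide (c.natAbs ≤ N)
  | .reg i => decide (i ≤ N)
  | .arr a e => decide (a ≤ N) && e.smp N
  | .add e f => e.smp N && f.smp N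
  | .sub e f => e.smp N && f.smp N
  | .mul e f => e.smp N && f.smp N
  | .div e f => e.smp N && f.smp N
  | .mod e f => e.smp N && f.smp N
  | .cond e f g h => e.smp N && f.smp N && g.smp N && h.smp N
  | .sum i (.reg j) f => decide (i ≤ N) && decide (j ≤ N) && f.smp N
  | .sum _ _ _ => false

@[inherit_doc Expr.smp]
def Prog.smp (N : ℕ) : Prog → Bool
  | .skip => true
  | .set i e => decide (i ≤ N) && e.smp N
  | .put a e f => decide (a ≤ N) && e.smp N && f.smp N
  | .seq p q => p.smp N && q.smp N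
  | .ite e f p q => e.smp N && f.smp N && p.smp N && q.smp N
  | .loop i (.reg j) p => decide (i ≤ N) && decide (j ≤ N) && p.smp N
  | .loop _ _ _ => false

/-- All registers and cells contain words. -/
def Tame (w : ℕ) (s : St) : Prop :=
  (∀ j, 0 ≤ s.r j ∧ s.r j < 2 ^ w) ∧ ∀ a k, 0 ≤ s.m a k ∧ s.m a k < 2 ^ w

theorem blen_le {x : ℤ} {m : ℕ} (h : |x| ≤ 2 ^ m) : blen x ≤ m + 2 := by
  unfold blen
  have h1 : x.natAbs ≤ 2 ^ m := by
    have : ((x.natAbs : ℕ) : ℤ) ≤ 2 ^ m := by rwa [Int.natCast_natAbs]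
    exact_mod_cast this
  have h2 : x.natAbs < 2 ^ (m + 1) := lt_of_le_of_lt h1 (Nat.pow_lt_pow_right (by norm_num)
    (Nat.lt_succ_self m))
  have := Nat.size_le.mpr h2
  omega

theorem tame_setR {w : ℕ} {s : St} (h : Tame w s) (i : ℕ) {v : ℤ} (h0 : 0 ≤ v)
    (h1 : v < 2 ^ w) : Tame w (s.setR i v) := by
  refine ⟨fun j => ?_, h.2⟩
  rw [St.setR_r]
  split_ifs
  · exact ⟨h0, h1⟩
  · exact h.1 j

theorem tame_setM {w : ℕ} {s : St} (h : Tame w s) (a : ℕ) (k : ℤ) {v : ℤ} (h0 : 0 ≤ v)
    (h1 : v < 2 ^ w) : Tame w (s.setM a k v) := by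
  refine ⟨h.1, fun c l => ?_⟩
  rw [St.setM_m]
  split_ifs
  · rw [Function.update_apply]
    split_ifs
    · exact ⟨h0, h1⟩
    · exact h.2 a l
  · exact h.2 c l

theorem Expr.sz_pos (e : Expr) : 1 ≤ e.sz := by
  cases e <;> simp [Expr.sz]

theorem pow_add_le {x y : ℕ} (hx : 1 ≤ x) (hy : 1 ≤ y) :
    (2 : ℤ) ^ x + 2 ^ y ≤ 2 ^ (x + y) := by
  rw [pow_add]
  have h1 : (2 : ℤ) ≤ 2 ^ x := by
    calc (2 : ℤ) = 2 ^ 1 := by norm_num
      _ ≤ 2 ^ x := pow_le_pow_right₀ (by norm_num) hx
  have h2 : (2 : ℤ) ≤ 2 ^ y := by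
    calc (2 : ℤ) = 2 ^ 1 := by norm_num
      _ ≤ 2 ^ y := pow_le_pow_right₀ (by norm_num) hy
  nlinarith

/-- The size of the values. -/
theorem Expr.eval_le {w N : ℕ} (hw : 1 ≤ w) (hN : N < 2 ^ w) (e : Expr) : e.smp N = true →
    ∀ s : St, Tame w s → |e.eval s| ≤ 2 ^ (w * e.sz) := by
  induction e with
  | const c =>
    intro h s hs
    simp only [Expr.smp, decide_eq_true_eq] at h
    simp only [Expr.eval, Expr.sz, mul_one]
    have : (c.natAbs : ℤ) ≤ 2 ^ w := by exact_mod_cast (h.trans hN.le)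
    rwa [Int.natCast_natAbs] at this
  | reg i =>
    intro h s hs
    simp only [Expr.eval, Expr.sz, mul_one]
    rw [abs_of_nonneg (hs.1 i).1]
    exact (hs.1 i).2.le
  | arr a e ih =>
    intro h s hs
    simp only [Expr.eval, Expr.sz]
    rw [abs_of_nonneg (hs.2 a _).1]
    refine (hs.2 a _).2.le.trans (pow_le_pow_right₀ (by norm_num) ?_)
    nlinarith
  | add e f ih1 ih2 =>
    intro h s hs
    simp only [Expr.smp, Bool.and_eq_true] at h
    simp only [Expr.eval, Expr.sz]
    have h1 := ih1 h.1 s hs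
    have h2 := ih2 h.2 s hs
    have h3 := pow_add_le (x := w * e.sz) (y := w * f.sz) (Nat.mul_pos hw e.sz_pos)
      (Nat.mul_pos hw f.sz_pos)
    calc |e.eval s + f.eval s| ≤ |e.eval s| + |f.eval s| := abs_add_le _ _
      _ ≤ 2 ^ (w * e.sz) + 2 ^ (w * f.sz) := add_le_add h1 h2
      _ ≤ 2 ^ (w * e.sz + w * f.sz) := h3
      _ ≤ 2 ^ (w * (e.sz + f.sz + 1)) := pow_le_pow_right₀ (by norm_num) (by nlinarith)
  | sub e f ih1 ih2 =>
    intro h s hs
    simp only [Expr.smp, Bool.and_eq_true] at h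
    simp only [Expr.eval, Expr.sz]
    have h1 := ih1 h.1 s hs
    have h2 := ih2 h.2 s hs
    have h3 := pow_add_le (x := w * e.sz) (y := w * f.sz) (Nat.mul_pos hw e.sz_pos)
      (Nat.mul_pos hw f.sz_pos)
    calc |e.eval s - f.eval s| ≤ |e.eval s| + |f.eval s| := abs_sub _ _
      _ ≤ 2 ^ (w * e.sz) + 2 ^ (w * f.sz) := add_le_add h1 h2
      _ ≤ 2 ^ (w * e.sz + w * f.sz) := h3
      _ ≤ 2 ^ (w * (e.sz + f.sz + 1)) := pow_le_pow_right₀ (by norm_num) (by nlinarith)
  | mul e f ih1 ih2 =>
    intro h s hs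
    simp only [Expr.smp, Bool.and_eq_true] at h
    simp only [Expr.eval, Expr.sz]
    have h1 := ih1 h.1 s hs
    have h2 := ih2 h.2 s hs
    calc |e.eval s * f.eval s| = |e.eval s| * |f.eval s| := abs_mul _ _
      _ ≤ 2 ^ (w * e.sz) * 2 ^ (w * f.sz) := mul_le_mul h1 h2 (abs_nonneg _) (by positivity)
      _ = 2 ^ (w * e.sz + w * f.sz) := by rw [pow_add]
      _ ≤ 2 ^ (w * (e.sz + f.sz + 1)) := pow_le_pow_right₀ (by norm_num) (by nlinarith)
  | div e f ih1 ih2 =>
    intro h s hs
    simp only [Expr.smp, Bool.and_eq_true] at h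
    simp only [Expr.eval, Expr.sz]
    have h1 := ih1 h.1 s hs
    refine (Int.abs_ediv_le_abs _ _).trans (h1.trans (pow_le_pow_right₀ (by norm_num) ?_))
    nlinarith
  | mod e f ih1 ih2 =>
    intro h s hs
    simp only [Expr.smp, Bool.and_eq_true] at h
    simp only [Expr.eval, Expr.sz]
    have h1 := ih1 h.1 s hs
    have h2 := ih2 h.2 s hs
    by_cases h0 : f.eval s = 0
    · rw [h0, Int.emod_zero]
      exact h1.trans (pow_le_pow_right₀ (by norm_num) (by nlinarith))
    · rw [abs_of_nonneg (Int.emod_nonneg _ h0)]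
      exact ((Int.emod_lt_abs _ h0).le.trans h2).trans
        (pow_le_pow_right₀ (by norm_num) (by nlinarith))
  | cond e f g k ih1 ih2 ih3 ih4 =>
    intro h s hs
    simp only [Expr.smp, Bool.and_eq_true] at h
    simp only [Expr.eval, Expr.sz]
    have h1 := ih3 h.1.2 s hs
    have h2 := ih4 h.2 s hs
    split_ifs
    · exact h1.trans (pow_le_pow_right₀ (by norm_num) (by nlinarith))
    · exact h2.trans (pow_le_pow_right₀ (by norm_num) (by nlinarith))
  | sum i e f ih1 ih2 =>
    intro h s hs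
    cases e with
    | reg j =>
      simp only [Expr.smp, Bool.and_eq_true, decide_eq_true_eq] at h
      simp only [Expr.eval, Expr.sz]
      have hj := hs.1 j
      calc |∑ k ∈ range (s.r j).toNat, f.eval (s.setR i k)|
          ≤ ∑ k ∈ range (s.r j).toNat, |f.eval (s.setR i k)| := Finset.abs_sum_le_sum_abs _ _
        _ ≤ ∑ _k ∈ range (s.r j).toNat, (2 : ℤ) ^ (w * f.sz) := by
            refine Finset.sum_le_sum fun k hk => ih2 h.2 _ (tame_setR hs i (by positivity) ?_)
            have := Finset.mem_range.mp hk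
            omega
        _ = (s.r j) * 2 ^ (w * f.sz) := by
            rw [Finset.sum_const, card_range, nsmul_eq_mul, Int.toNat_of_nonneg hj.1]
        _ ≤ 2 ^ w * 2 ^ (w * f.sz) := mul_le_mul_of_nonneg_right hj.2.le (by positivity)
        _ = 2 ^ (w + w * f.sz) := by rw [pow_add]
        _ ≤ 2 ^ (w * (f.sz + 3)) := pow_le_pow_right₀ (by norm_num) (by nlinarith)
    | _ => simp [Expr.smp] at h

theorem Expr.blen_eval {w N K : ℕ} (hw : 1 ≤ w) (hN : N < 2 ^ w) (e : Expr)
    (h : e.smp N = true) (hK : e.sz ≤ K) (s : St) (hs : Tame w s) :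
    blen (e.eval s) ≤ w * K + 2 :=
  (blen_le (e.eval_le hw hN h s hs)).trans
    (Nat.add_le_add_right (Nat.mul_le_mul_left _ hK) _)

theorem size_le_w {w N i : ℕ} (hN : N < 2 ^ w) (hi : i ≤ N) : Nat.size i ≤ w :=
  Nat.size_le.mpr (lt_of_le_of_lt hi hN)

theorem blen_word {w : ℕ} {x : ℤ} (h : 0 ≤ x ∧ x < 2 ^ w) : blen x ≤ w + 2 :=
  blen_le (by rw [abs_of_nonneg h.1]; exact h.2.le)

theorem sq_le_q {w K x : ℕ} (h : x ≤ 4 * (w * K + 2)) : x ^ 2 ≤ (4 * (w * K + 2)) ^ 2 :=
  Nat.pow_le_pow_left h 2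

/-- The bit cost of an expression is at most the number of operations times the square of
`4 (w K + 2)`. -/
theorem Expr.bcost_le {w N K : ℕ} (hw : 1 ≤ w) (hN : N < 2 ^ w) (hK1 : 1 ≤ K) (e : Expr) :
    e.smp N = true → e.sz ≤ K → ∀ s : St, Tame w s →
      e.bcost s ≤ e.cost s * (4 * (w * K + 2)) ^ 2 := by
  obtain ⟨Q, hQ⟩ : ∃ Q, Q = (4 * (w * K + 2)) ^ 2 := ⟨_, rfl⟩
  have hwK : w ≤ w * K := Nat.le_mul_of_pos_right w hK1
  rw [← hQ]
  have two : ∀ {x y z : ℕ}, x ≤ w * K + 2 → y ≤ w * K + 2 → z ≤ w * K + 2 →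
      (x + y + z) ^ 2 ≤ Q := by
    intro x y z hx hy hz
    rw [hQ]
    exact sq_le_q (by omega)
  induction e with
  | const c =>
    intro h hK s hs
    have h1 := Expr.blen_eval hw hN (.const c) h hK s hs
    simp only [Expr.eval] at h1
    simp only [Expr.bcost, Expr.cost, one_mul]
    rw [hQ]
    exact sq_le_q (by omega)
  | reg i =>
    intro h hK s hs
    have h1 := Expr.blen_eval hw hN (.reg i) h hK s hs
    simp only [Expr.eval] at h1
    simp only [Expr.smp, decide_eq_true_eq] at h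
    have h2 := size_le_w hN h
    simp only [Expr.bcost, Expr.cost, one_mul]
    rw [hQ]
    exact sq_le_q (by omega)
  | arr a e ih =>
    intro h hK s hs
    have h1 := Expr.blen_eval hw hN (.arr a e) h hK s hs
    simp only [Expr.smp, Bool.and_eq_true, decide_eq_true_eq] at h
    simp only [Expr.sz] at hK
    have h2 := size_le_w hN h.1
    have h3 := Expr.blen_eval hw hN e h.2 (by omega : e.sz ≤ K) s hs
    have h4 := ih h.2 (by omega) s hs
    simp only [Expr.eval] at h1
    simp only [Expr.bcost, Expr.cost, add_mul, one_mul]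
    exact Nat.add_le_add h4 (two (by omega) h3 h1)
  | add e f ih1 ih2 =>
    intro h hK s hs
    have h1 := Expr.blen_eval hw hN (.add e f) h hK s hs
    simp only [Expr.smp, Bool.and_eq_true] at h
    simp only [Expr.sz] at hK
    have h2 := Expr.blen_eval hw hN e h.1 (by omega : e.sz ≤ K) s hs
    have h3 := Expr.blen_eval hw hN f h.2 (by omega : f.sz ≤ K) s hs
    simp only [Expr.bcost, Expr.cost, add_mul, one_mul]
    exact Nat.add_le_add (Nat.add_le_add (ih1 h.1 (by omega) s hs) (ih2 h.2 (by omega) s hs))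
      (two h2 h3 h1)
  | sub e f ih1 ih2 =>
    intro h hK s hs
    have h1 := Expr.blen_eval hw hN (.sub e f) h hK s hs
    simp only [Expr.smp, Bool.and_eq_true] at h
    simp only [Expr.sz] at hK
    have h2 := Expr.blen_eval hw hN e h.1 (by omega : e.sz ≤ K) s hs
    have h3 := Expr.blen_eval hw hN f h.2 (by omega : f.sz ≤ K) s hs
    simp only [Expr.bcost, Expr.cost, add_mul, one_mul]
    exact Nat.add_le_add (Nat.add_le_add (ih1 h.1 (by omega) s hs) (ih2 h.2 (by omega) s hs))
      (two h2 h3 h1)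
  | mul e f ih1 ih2 =>
    intro h hK s hs
    have h1 := Expr.blen_eval hw hN (.mul e f) h hK s hs
    simp only [Expr.smp, Bool.and_eq_true] at h
    simp only [Expr.sz] at hK
    have h2 := Expr.blen_eval hw hN e h.1 (by omega : e.sz ≤ K) s hs
    have h3 := Expr.blen_eval hw hN f h.2 (by omega : f.sz ≤ K) s hs
    simp only [Expr.bcost, Expr.cost, add_mul, one_mul]
    exact Nat.add_le_add (Nat.add_le_add (ih1 h.1 (by omega) s hs) (ih2 h.2 (by omega) s hs))
      (two h2 h3 h1)
  | div e f ih1 ih2 =>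
    intro h hK s hs
    have h1 := Expr.blen_eval hw hN (.div e f) h hK s hs
    simp only [Expr.smp, Bool.and_eq_true] at h
    simp only [Expr.sz] at hK
    have h2 := Expr.blen_eval hw hN e h.1 (by omega : e.sz ≤ K) s hs
    have h3 := Expr.blen_eval hw hN f h.2 (by omega : f.sz ≤ K) s hs
    simp only [Expr.bcost, Expr.cost, add_mul, one_mul]
    exact Nat.add_le_add (Nat.add_le_add (ih1 h.1 (by omega) s hs) (ih2 h.2 (by omega) s hs))
      (two h2 h3 h1)
  | mod e f ih1 ih2 =>
    intro h hK s hs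
    have h1 := Expr.blen_eval hw hN (.mod e f) h hK s hs
    simp only [Expr.smp, Bool.and_eq_true] at h
    simp only [Expr.sz] at hK
    have h2 := Expr.blen_eval hw hN e h.1 (by omega : e.sz ≤ K) s hs
    have h3 := Expr.blen_eval hw hN f h.2 (by omega : f.sz ≤ K) s hs
    simp only [Expr.bcost, Expr.cost, add_mul, one_mul]
    exact Nat.add_le_add (Nat.add_le_add (ih1 h.1 (by omega) s hs) (ih2 h.2 (by omega) s hs))
      (two h2 h3 h1)
  | cond e f g k ih1 ih2 ih3 ih4 =>
    intro h hK s hs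
    simp only [Expr.smp, Bool.and_eq_true] at h
    simp only [Expr.sz] at hK
    have h2 := Expr.blen_eval hw hN e h.1.1.1 (by omega : e.sz ≤ K) s hs
    have h3 := Expr.blen_eval hw hN f h.1.1.2 (by omega : f.sz ≤ K) s hs
    have h4 : (blen (e.eval s) + blen (f.eval s)) ^ 2 ≤ Q := by
      rw [hQ]; exact sq_le_q (by omega)
    simp only [Expr.bcost, Expr.cost, add_mul, one_mul]
    refine Nat.add_le_add (Nat.add_le_add (Nat.add_le_add (ih1 h.1.1.1 (by omega) s hs)
      (ih2 h.1.1.2 (by omega) s hs)) ?_) h4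
    split_ifs
    · exact ih3 h.1.2 (by omega) s hs
    · exact ih4 h.2 (by omega) s hs
  | sum i e f ih1 ih2 =>
    intro h hK s hs
    cases e with
    | reg j =>
      simp only [Expr.smp, Bool.and_eq_true, decide_eq_true_eq] at h
      simp only [Expr.sz] at hK
      have hj := hs.1 j
      have h1 := ih1 (by simpa [Expr.smp] using h.1.2) (by simp only [Expr.sz]; omega) s hs
      have hi := size_le_w hN h.1.1
      have hbj := blen_word hj
      simp only [Expr.bcost, Expr.cost, Expr.eval, add_mul, one_mul, Finset.sum_mul] at h1 ⊢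
      refine Nat.add_le_add (Nat.add_le_add h1 (Finset.sum_le_sum fun k hk => ?_)) ?_
      · have hk' := Finset.mem_range.mp hk
        have hkw : (k : ℤ) < 2 ^ w := by omega
        have ht : ∀ l : ℕ, l ≤ k → Tame w (s.setR i l) := fun l hl =>
          tame_setR hs i (by positivity) (by omega)
        refine Nat.add_le_add (ih2 h.2 (by omega) _ (ht k le_rfl)) ?_
        have h3 := Expr.blen_eval hw hN f h.2 (by omega : f.sz ≤ K) _ (ht k le_rfl)
        have h4 : blen (k : ℤ) ≤ w + 2 := blen_word ⟨by positivity, hkw⟩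
        have h5 : |∑ l ∈ range (k + 1), f.eval (s.setR i l)| ≤ 2 ^ (w * K) := by
          calc |∑ l ∈ range (k + 1), f.eval (s.setR i l)|
              ≤ ∑ l ∈ range (k + 1), |f.eval (s.setR i l)| := Finset.abs_sum_le_sum_abs _ _
            _ ≤ ∑ _l ∈ range (k + 1), (2 : ℤ) ^ (w * f.sz) :=
                Finset.sum_le_sum fun l hl => f.eval_le hw hN h.2 _
                  (ht l (by have := Finset.mem_range.mp hl; omega))
            _ = ((k : ℤ) + 1) * 2 ^ (w * f.sz) := by
                rw [Finset.sum_const, card_range, nsmul_eq_mul]; push_cast; rfl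
            _ ≤ 2 ^ w * 2 ^ (w * f.sz) :=
                mul_le_mul_of_nonneg_right (by omega) (by positivity)
            _ = 2 ^ (w + w * f.sz) := by rw [pow_add]
            _ ≤ 2 ^ (w * K) := pow_le_pow_right₀ (by norm_num) (by nlinarith)
        have h6 := blen_le h5
        rw [hQ]
        exact sq_le_q (by omega)
      · rw [hQ]
        exact sq_le_q (by omega)
    | _ => simp [Expr.smp] at h

theorem mod_word (w : ℕ) (x : ℤ) : 0 ≤ x % 2 ^ w ∧ x % 2 ^ w < 2 ^ w :=
  ⟨Int.emod_nonneg _ (by positivity), Int.emod_lt_of_pos _ (by positivity)⟩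

theorem iter_tame {w i : ℕ} {b : St → St} (hb : ∀ s, Tame w s → Tame w (b s)) {s : St}
    (hs : Tame w s) (k : ℕ) (hk : (k : ℤ) ≤ 2 ^ w) : Tame w (iter b i s k) := by
  induction k with
  | zero => exact hs
  | succ k ih =>
    exact hb _ (tame_setR (ih (by push_cast at hk; omega)) i (by positivity)
      (by push_cast at hk; omega))

theorem Prog.run_tame {w N : ℕ} (p : Prog) : p.smp N = true → ∀ s : St, Tame w s →
    Tame w (p.run w s) := by
  induction p with
  | skip => intro _ s hs; exact hs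
  | set i e => intro _ s hs; exact tame_setR hs i (mod_word w _).1 (mod_word w _).2
  | put a e f => intro _ s hs; exact tame_setM hs a _ (mod_word w _).1 (mod_word w _).2
  | seq p q ih1 ih2 =>
    intro h s hs
    simp only [Prog.smp, Bool.and_eq_true] at h
    exact ih2 h.2 _ (ih1 h.1 s hs)
  | ite e f p q ih1 ih2 =>
    intro h s hs
    simp only [Prog.smp, Bool.and_eq_true] at h
    simp only [Prog.run]
    split_ifs
    · exact ih1 h.1.2 s hs
    · exact ih2 h.2 s hs
  | loop i e p ih =>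
    intro h s hs
    cases e with
    | reg j =>
      simp only [Prog.smp, Bool.and_eq_true, decide_eq_true_eq] at h
      simp only [Prog.run, Expr.eval]
      have hj := hs.1 j
      exact tame_setR (iter_tame (fun s hs => ih h.2 s hs) hs _ (by omega)) i (hs.1 i).1
        (hs.1 i).2
    | _ => simp [Prog.smp] at h

/-- The bit cost of a run is at most the number of operations times the square of
`4 (w K + 2)`. -/
theorem Prog.btime_le {w N K : ℕ} (hw : 1 ≤ w) (hN : N < 2 ^ w) (hK1 : 1 ≤ K) (p : Prog) :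
    p.smp N = true → p.sz ≤ K → ∀ s : St, Tame w s →
      p.btime w s ≤ p.time w s * (4 * (w * K + 2)) ^ 2 := by
  obtain ⟨Q, hQ⟩ : ∃ Q, Q = (4 * (w * K + 2)) ^ 2 := ⟨_, rfl⟩
  have hwK : w ≤ w * K := Nat.le_mul_of_pos_right w hK1
  have hQ1 : 1 ≤ Q := by rw [hQ]; exact Nat.one_le_pow _ _ (by omega)
  have hE := fun (e : Expr) (h1 : e.smp N = true) (h2 : e.sz ≤ K) (s : St) (hs : Tame w s) =>
    e.bcost_le hw hN hK1 h1 h2 s hs
  rw [← hQ] at hE ⊢
  induction p with
  | skip => intro _ _ s _; simpa [Prog.btime, Prog.time] using hQ1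
  | set i e =>
    intro h hK s hs
    simp only [Prog.smp, Bool.and_eq_true, decide_eq_true_eq] at h
    simp only [Prog.sz] at hK
    have h1 := size_le_w hN h.1
    have h2 := Expr.blen_eval hw hN e h.2 (by omega : e.sz ≤ K) s hs
    simp only [Prog.btime, Prog.time, add_mul, one_mul]
    refine Nat.add_le_add (hE e h.2 (by omega) s hs) ?_
    rw [hQ]
    exact sq_le_q (by omega)
  | put a e f =>
    intro h hK s hs
    simp only [Prog.smp, Bool.and_eq_true, decide_eq_true_eq] at h
    simp only [Prog.sz] at hK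
    have h1 := size_le_w hN h.1.1
    have h2 := Expr.blen_eval hw hN e h.1.2 (by omega : e.sz ≤ K) s hs
    have h3 := Expr.blen_eval hw hN f h.2 (by omega : f.sz ≤ K) s hs
    simp only [Prog.btime, Prog.time, add_mul, one_mul]
    refine Nat.add_le_add (Nat.add_le_add (hE e h.1.2 (by omega) s hs)
      (hE f h.2 (by omega) s hs)) ?_
    rw [hQ]
    exact sq_le_q (by omega)
  | seq p q ih1 ih2 =>
    intro h hK s hs
    simp only [Prog.smp, Bool.and_eq_true] at h
    simp only [Prog.sz] at hK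
    simp only [Prog.btime, Prog.time, add_mul, one_mul]
    exact Nat.add_le_add (Nat.add_le_add (ih1 h.1 (by omega) s hs)
      (ih2 h.2 (by omega) _ (p.run_tame h.1 s hs))) hQ1
  | ite e f p q ih1 ih2 =>
    intro h hK s hs
    simp only [Prog.smp, Bool.and_eq_true] at h
    simp only [Prog.sz] at hK
    have h2 := Expr.blen_eval hw hN e h.1.1.1 (by omega : e.sz ≤ K) s hs
    have h3 := Expr.blen_eval hw hN f h.1.1.2 (by omega : f.sz ≤ K) s hs
    simp only [Prog.btime, Prog.time, add_mul, one_mul]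
    refine Nat.add_le_add (Nat.add_le_add (Nat.add_le_add (hE e h.1.1.1 (by omega) s hs)
      (hE f h.1.1.2 (by omega) s hs)) ?_) ?_
    · split_ifs
      · exact ih1 h.1.2 (by omega) s hs
      · exact ih2 h.2 (by omega) s hs
    · rw [hQ]
      exact sq_le_q (by omega)
  | loop i e p ih =>
    intro h hK s hs
    cases e with
    | reg j =>
      simp only [Prog.smp, Bool.and_eq_true, decide_eq_true_eq] at h
      simp only [Prog.sz] at hK
      have hj := hs.1 j
      have h1 := hE (.reg j) (by simpa [Expr.smp] using h.1.2) (by simp only [Expr.sz]; omega) s hs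
      have hi := size_le_w hN h.1.1
      have hbj := blen_word hj
      simp only [Prog.btime, Prog.time, Expr.eval, add_mul, one_mul, Finset.sum_mul] at h1 ⊢
      refine Nat.add_le_add (Nat.add_le_add h1 (Finset.sum_le_sum fun k hk => ?_)) ?_
      · have hk' := Finset.mem_range.mp hk
        have hkw : (k : ℤ) < 2 ^ w := by omega
        have h4 : blen (k : ℤ) ≤ w + 2 := blen_word ⟨by positivity, hkw⟩
        refine Nat.add_le_add (ih h.2 (by omega) _ (tame_setR
          (iter_tame (fun s hs => p.run_tame h.2 s hs) hs k hkw.le) i (by positivity) hkw)) ?_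
        rw [hQ]
        exact sq_le_q (by omega)
      · rw [hQ]
        exact sq_le_q (by omega)
    | _ => simp [Prog.smp] at h

end Pool.Agent.Lib.MP_b2ebfc_lc
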