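import Pool.Agent.Lib.MP_b2ebfc_lc.Lemmas
import Pool.Agent.Lib.MP_b2ebfc_lc.Base

/-!
# The program

Registers: 0 `n`, 1 `ℓ`, 2 output, 3 `a`, 4 `b`, 5 `k = ℓ/2`, 6 `u₀`, 7 `z`, 8 `8(n+2)²`,
9 colour of the part `A`, 10 `2^a`, 11 `2^b`, 12 `t = z^(b+1)`, 13 `b-1`, 14 `(b+1)²`, 15 `b²`,
16 `ab`, 17 `k+1`, 18 `n+1`, 19 `3^|Z|`, 20 mask `Z` (or `U`), 21 ternary code (or mask `W`),
22 `|Z|`, 24 determinant, 29-39 bound variables and temporaries.

Arrays: 0 adjacency matrix (`n v + v'`), 1 colours, 2 ranks, 3 `M` (`b i + l`), 4 powers of 2,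
5 powers of 3, 6 binomials (`(n+1) i + j`), 7 powers of `z`, 8 `R`, 9 `R'`, 10 weights,
11 matrix `X` (`b x + y`), 12, 13 scratch, 14, 15 positive and negative accumulators (approach I),
16 permanents, 17 scratch, 18 accumulators (approach II), 19 column mask.
-/

set_option autoImplicit false

namespace Pool.Agent.Lib.MP_b2ebfc_lc

/-- `if e = f then g else h`. -/
def eqE (e f g h : Expr) : Expr := .cond e f h (.cond f e h g)

theorem eval_eqE (e f g h : Expr) (s : St) :
    (eqE e f g h).eval s = if e.eval s = f.eval s then g.eval s else h.eval s := by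
  simp only [eqE, Expr.eval]
  rcases lt_trichotomy (e.eval s) (f.eval s) with h1 | h1 | h1
  · rw [if_pos h1, if_neg (ne_of_lt h1)]
  · rw [if_neg (by rw [h1]; exact lt_irrefl _), if_neg (by rw [h1]; exact lt_irrefl _), if_pos h1]
  · rw [if_neg (not_lt_of_gt h1), if_pos h1, if_neg (ne_of_gt h1)]

/-- The bit number `i` of `Z`. -/
def bitE (Z i : Expr) : Expr := .mod (.div Z (.arr 4 i)) (.const 2)

/-- Sequences of programs. -/
def seqs : List Prog → Prog
  | [] => .skip
  | p :: l => .seq p (seqs l)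

/-! ### The determinant -/

/-- The entry `(i, l)` of `μ(F)` in Bird's algorithm (`F` in array 12). -/
def muE (i l : Expr) : Expr :=
  .cond i l (.arr 12 (.add (.mul i (.reg 4)) l))
    (.cond l i (.const 0)
      (.sub (.const 0) (.sum 33 (.reg 4)
        (.cond i (.reg 33) (.arr 12 (.add (.mul (.reg 33) (.reg 4)) (.reg 33))) (.const 0)))))

/-- The entry with index `reg 30` of `μ(F) X`. -/
def birdE : Expr :=
  .sum 32 (.reg 4) (.mul (muE (.div (.reg 30) (.reg 4)) (.reg 32))
    (.arr 11 (.add (.mul (.reg 32) (.reg 4)) (.mod (.reg 30) (.reg 4)))))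

/-- Bird's algorithm: the determinant of the `b × b` matrix in array 11 goes to register 24. -/
def birdP : Prog := seqs [
  tab 30 15 12 (.arr 11 (.reg 30)),
  .loop 31 (.reg 13) (seqs [tab 30 15 13 birdE, tab 30 15 12 (.arr 13 (.reg 30))]),
  .set 24 (.cond (.mod (.reg 13) (.const 2)) (.const 1) (.arr 12 (.const 0))
    (.sub (.const 0) (.arr 12 (.const 0))))]

/-- The entry with index `reg 30` of the matrix
`[x = y] (1 + z w_x) + t c_x c_y Σ_h (1 - bit_h Z) M_hx M_hy`. -/
def matXE : Expr :=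
  .add (eqE (.div (.reg 30) (.reg 4)) (.mod (.reg 30) (.reg 4))
      (.add (.const 1) (.mul (.reg 7) (.arr 10 (.div (.reg 30) (.reg 4))))) (.const 0))
    (.mul (.reg 12) (.mul (.mul (.arr 19 (.div (.reg 30) (.reg 4)))
        (.arr 19 (.mod (.reg 30) (.reg 4))))
      (.sum 31 (.reg 3) (.mul (.sub (.const 1) (bitE (.reg 20) (.reg 31)))
        (.mul (.arr 3 (.add (.mul (.reg 31) (.reg 4)) (.div (.reg 30) (.reg 4))))
          (.arr 3 (.add (.mul (.reg 31) (.reg 4)) (.mod (.reg 30) (.reg 4)))))))))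

/-- Build the matrix and compute its determinant. -/
def detP : Prog := seqs [tab 30 15 11 matXE, birdP]

/-! ### Approach I -/

/-- The number of bits of register 20 among the first `a`. -/
def popE : Expr := .sum 31 (.reg 3) (bitE (.reg 20) (.reg 31))

/-- The ternary digit that belongs to the position `reg 30`. -/
def digE : Expr :=
  .mod (.div (.reg 21) (.arr 5 (.sum 31 (.reg 3)
    (.cond (.reg 31) (.reg 30) (bitE (.reg 20) (.reg 31)) (.const 0))))) (.const 3)

/-- Membership in `R`. -/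
def raE : Expr := .mul (bitE (.reg 20) (.reg 30)) (eqE digE (.const 1) (.const 0) (.const 1))

/-- Membership in `R'`. -/
def rbE : Expr := .mul (bitE (.reg 20) (.reg 30)) (eqE digE (.const 0) (.const 0) (.const 1))

/-- The weight `c_R c_{R'}` of the column `reg 30`. -/
def wtE : Expr :=
  .mul (.sum 31 (.reg 3) (.mul (.arr 8 (.reg 31))
      (.arr 3 (.add (.mul (.reg 31) (.reg 4)) (.reg 30)))))
    (.sum 31 (.reg 3) (.mul (.arr 9 (.reg 31))
      (.arr 3 (.add (.mul (.reg 31) (.reg 4)) (.reg 30)))))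

/-- The parity of `|R| + |R'|`. -/
def parE : Expr := .mod (.sum 31 (.reg 3) (.add (.arr 8 (.reg 31)) (.arr 9 (.reg 31)))) (.const 2)

/-- The body of the inner loop of approach I. -/
def body1 : Prog := seqs [
  tab 30 3 8 raE,
  tab 30 3 9 rbE,
  tab 30 4 10 wtE,
  tab 30 4 19 (.const 1),
  detP,
  .ite parE (.const 1)
    (.put 14 (.reg 22) (.add (.arr 14 (.reg 22)) (.reg 24)))
    (.put 15 (.reg 22) (.add (.arr 15 (.reg 22)) (.reg 24)))]

/-- Approach I. -/
def app1P : Prog :=
  .loop 20 (.reg 10) (seqs [.set 22 popE,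
    .ite (.reg 22) (.add (.reg 6) (.const 1))
      (seqs [.set 19 (.arr 5 (.reg 22)), .loop 21 (.reg 19) body1]) .skip])

/-! ### Approach II -/

/-- One step of the recursion for the permanents. -/
def permE : Expr :=
  .sum 31 (.reg 4) (.mul (bitE (.reg 30) (.reg 31))
    (.mul (.arr 3 (.add (.mul (.reg 29) (.reg 4)) (.reg 31)))
      (.arr 16 (.sub (.reg 30) (.arr 4 (.reg 31))))))

/-- The permanents of the rows `U` (register 20) and all column masks, in array 16. -/
def permP : Prog := seqs [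
  tab 30 11 16 (.cond (.reg 30) (.const 1) (.const 1) (.const 0)),
  .loop 29 (.reg 3) (.ite (.const 0) (bitE (.reg 20) (.reg 29))
    (seqs [tab 30 11 17 permE, tab 30 11 16 (.arr 17 (.reg 30))]) .skip)]

/-- The body of the inner loop of approach II. -/
def body2 : Prog := seqs [
  tab 30 4 10 (.const 0),
  tab 30 4 19 (.sub (.const 1) (bitE (.reg 21) (.reg 30))),
  detP,
  .put 18 (.reg 22) (.add (.arr 18 (.reg 22))
    (.mul (.mul (.arr 16 (.reg 21)) (.arr 16 (.reg 21))) (.reg 24)))]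

/-- Approach II. -/
def app2P : Prog :=
  .loop 20 (.reg 10) (seqs [.set 22 popE,
    .ite (.reg 6) (.reg 22) (.ite (.reg 22) (.add (.reg 5) (.const 1))
      (seqs [permP, .loop 21 (.reg 11) body2]) .skip) .skip])

/-! ### Preparation -/

/-- The new colour of the vertex `reg 32`. -/
def colE : Expr :=
  .cond (.const 0) (.arr 1 (.reg 32)) (.arr 1 (.reg 32))
    (.cond (.const 0) (.sum 33 (.reg 0) (.mul (.arr 0 (.add (.mul (.reg 32) (.reg 0)) (.reg 33)))
        (eqE (.arr 1 (.reg 33)) (.const 1) (.const 1) (.const 0)))) (.const 2)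
      (.cond (.const 0) (.sum 33 (.reg 0)
        (.mul (.arr 0 (.add (.mul (.reg 32) (.reg 0)) (.reg 33)))
        (eqE (.arr 1 (.reg 33)) (.const 2) (.const 1) (.const 0)))) (.const 1) (.const 0)))

/-- Two-colouring by propagation. -/
def colorP : Prog :=
  .loop 30 (.reg 0) (seqs [
    .put 1 (.reg 30) (.cond (.arr 1 (.reg 30)) (.const 1) (.const 1) (.arr 1 (.reg 30))),
    .loop 31 (.reg 0) (.loop 32 (.reg 0) (.put 1 (.reg 32) colE))])

/-- Ranks of the vertices in their colour classes, sizes of the classes. -/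
def sizesP : Prog := seqs [
  tab 30 0 2 (.sum 31 (.reg 0) (.cond (.reg 31) (.reg 30)
    (eqE (.arr 1 (.reg 31)) (.arr 1 (.reg 30)) (.const 1) (.const 0)) (.const 0))),
  .set 34 (.sum 31 (.reg 0) (eqE (.arr 1 (.reg 31)) (.const 1) (.const 1) (.const 0))),
  .set 35 (.sum 31 (.reg 0) (eqE (.arr 1 (.reg 31)) (.const 2) (.const 1) (.const 0))),
  .ite (.reg 34) (.add (.reg 35) (.const 1))
    (seqs [.set 9 (.const 1), .set 3 (.reg 34), .set 4 (.reg 35)])
    (seqs [.set 9 (.const 2), .set 3 (.reg 35), .set 4 (.reg 34)])]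

/-- The entry with index `reg 30` of the biadjacency matrix. -/
def matE : Expr :=
  .sum 31 (.reg 0) (.sum 32 (.reg 0)
    (eqE (.arr 1 (.reg 31)) (.reg 9)
      (eqE (.arr 2 (.reg 31)) (.div (.reg 30) (.reg 4))
        (eqE (.arr 1 (.reg 32)) (.reg 9) (.const 0)
          (eqE (.arr 2 (.reg 32)) (.mod (.reg 30) (.reg 4))
            (.arr 0 (.add (.mul (.reg 31) (.reg 0)) (.reg 32))) (.const 0))) (.const 0))
      (.const 0)))

/-- The biadjacency matrix. -/
def matP : Prog := seqs [.set 16 (.mul (.reg 3) (.reg 4)), tab 30 16 3 matE]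

/-- Constants, powers, binomials. -/
def constP : Prog := seqs [
  .set 13 (.sub (.reg 4) (.const 1)),
  .set 14 (.mul (.add (.reg 4) (.const 1)) (.add (.reg 4) (.const 1))),
  .set 15 (.mul (.reg 4) (.reg 4)),
  .set 17 (.add (.reg 5) (.const 1)),
  .set 18 (.add (.reg 0) (.const 1)),
  .set 8 (.mul (.const 8) (.mul (.add (.reg 0) (.const 2)) (.add (.reg 0) (.const 2)))),
  .set 6 (.cond (.mul (.const 13) (.reg 3)) (.mul (.const 12) (.reg 4)) (.reg 3)
    (.div (.mul (.const 5) (.reg 3)) (.const 8))),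
  .put 4 (.const 0) (.const 1),
  .loop 30 (.reg 0) (.put 4 (.add (.reg 30) (.const 1)) (.mul (.const 2) (.arr 4 (.reg 30)))),
  .put 5 (.const 0) (.const 1),
  .loop 30 (.reg 0) (.put 5 (.add (.reg 30) (.const 1)) (.mul (.const 3) (.arr 5 (.reg 30)))),
  .set 10 (.arr 4 (.reg 3)),
  .set 11 (.arr 4 (.reg 4)),
  .set 7 (.const 1),
  .loop 30 (.reg 8) (.set 7 (.mul (.const 2) (.reg 7))),
  .put 7 (.const 0) (.const 1),
  .loop 30 (.reg 14) (.put 7 (.add (.reg 30) (.const 1)) (.mul (.reg 7) (.arr 7 (.reg 30)))),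
  .set 12 (.arr 7 (.add (.reg 4) (.const 1))),
  .loop 30 (.reg 18) (.loop 31 (.reg 18) (.put 6 (.add (.mul (.reg 30) (.reg 18)) (.reg 31))
    (.cond (.reg 31) (.const 1) (.const 1) (.cond (.reg 30) (.const 1) (.const 0)
      (.add (.arr 6 (.add (.mul (.sub (.reg 30) (.const 1)) (.reg 18))
          (.sub (.reg 31) (.const 1))))
        (.arr 6 (.add (.mul (.sub (.reg 30) (.const 1)) (.reg 18)) (.reg 31))))))))]

/-! ### The final sum -/

/-- The digit of `e` with index `i`. -/
def zdigE (e i : Expr) : Expr := .mod (.div e (.arr 7 i)) (.reg 7)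

/-- `j = k - u`, `u` in register 30. -/
def jE : Expr := .sub (.reg 5) (.reg 30)

/-- `N(k - u, u)`, `u` in register 30. -/
def bigNE : Expr :=
  .cond (.reg 6) (.reg 30)
    (zdigE (.arr 18 (.reg 30)) (.mul (.add (.reg 4) (.const 1)) jE))
    (.sum 31 (.reg 17) (.cond (.reg 30) (.reg 31) (.const 0)
      (.mul (.arr 6 (.add (.mul (.sub (.sub (.reg 3) jE) (.reg 31)) (.reg 18))
          (.sub (.reg 30) (.reg 31))))
        (.sub (zdigE (.arr 14 (.reg 31)) (.add (.mul (.add (.reg 4) (.const 1)) jE) (.reg 30)))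
          (zdigE (.arr 15 (.reg 31))
            (.add (.mul (.add (.reg 4) (.const 1)) jE) (.reg 30)))))))

/-- The final sum, divided by `2k`. -/
def finalP : Prog :=
  .set 2 (.div (.sum 30 (.reg 17) (.mul (.cond (.mod jE (.const 2)) (.const 1)
    (.reg 30) (.sub (.const 0) (.reg 30))) bigNE)) (.mul (.const 2) (.reg 5)))

/-- The whole program. -/
def mainP : Prog := seqs [
  .set 5 (.div (.reg 1) (.const 2)),
  .ite (.mod (.reg 1) (.const 2)) (.const 1)
    (seqs [colorP, sizesP,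
      .ite (.reg 3) (.reg 5) .skip (seqs [matP, constP, app1P, app2P, finalP])]) .skip]

end Pool.Agent.Lib.MP_b2ebfc_lc
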