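import Pool.Agent.Lib.MP_b2ebfc_lc.MainTime
import Pool.Agent.Lib.MP_b2ebfc_lc.BitCost
import Pool.Agent.Lib.MP_b2ebfc_lc.H16.Time1
import Pool.Agent.Lib.MP_b2ebfc_lc.H17.DetExp
import Pool.Agent.Lib.MP_b2ebfc_lc.H17.FinalP
import Pool.Agent.Lib.MP_b2ebfc_lc.H17.Kron
import Pool.Agent.Lib.MP_b2ebfc_lc.H35.App1P
import Pool.Agent.Lib.MP_b2ebfc_lc.H35.App2P
import Pool.Agent.Lib.MP_b2ebfc_lc.H35.ConstP
import Pool.Agent.Lib.MP_b2ebfc_lc.H65.SizeMat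
import Pool.Agent.Lib.MP_b2ebfc_lc.H66.App1
import Pool.Agent.Lib.MP_b2ebfc_lc.H66.Bound
import Pool.Agent.Lib.MP_b2ebfc_lc.H66.Count
import Pool.Agent.Lib.MP_b2ebfc_lc.H66.DigitsOdd
import Pool.Agent.Lib.MP_b2ebfc_lc.H66.Gram
import Pool.Agent.Lib.MP_b2ebfc_lc.H66.Mask
import Pool.Agent.Lib.MP_b2ebfc_lc.H66.PermP
import Pool.Agent.Lib.MP_b2ebfc_lc.H66.PermRec
import Pool.Agent.Lib.MP_b2ebfc_lc.H66.Ryser
import Pool.Agent.Lib.MP_b2ebfc_lc.H75.Bird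
import Pool.Agent.Lib.MP_b2ebfc_lc.H75.Cancel
import Pool.Agent.Lib.MP_b2ebfc_lc.H75.Cycles
import Pool.Agent.Lib.MP_b2ebfc_lc.H78.ColorP
import Pool.Agent.Lib.MP_b2ebfc_lc.H78.Time2
import Pool.Agent.Lib.MP_b2ebfc_lc.H81.Time3

/-!
# Main theorem: counting the cycles of bipartite graphs in time `O*(1.97^n)`
-/

set_option autoImplicit false

namespace Pool.Agent.Lib.MP_b2ebfc_lc

open Finset

theorem detP_ok : DetPStatement := H35.detp (H35.birdp H75.bird)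

theorem value_ok (n : ℕ) (G : SimpleGraph (Fin n)) [DecidableRel G.Adj] (h2 : G.Colorable 2)
    (l : ℕ) (hl3 : 3 ≤ l) (hln : l ≤ n) :
    (mainP.run (wordLen n) (initSt n l G)).r 2 =
      (G.copyCount (SimpleGraph.cycleGraph l) : ℤ) :=
  main_value H75.cancel H75.cycles H66.odd H66.gram (H66.app1 H66.ryser H66.gram)
    (H66.bound H66.gram) H66.digits (H17.kron H17.detexp)
    (H35.app1p detP_ok H66.mask)
    (H35.app2p detP_ok (H66.permp H66.permRec H66.mask) H66.mask)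
    H17.finalp H78.colorp H65.sizeMat H35.constp n G h2 l hl3 hln

theorem time_ok : ∃ C d : ℕ, ∀ (n : ℕ) (G : SimpleGraph (Fin n)) [DecidableRel G.Adj],
    G.Colorable 2 → ∀ l : ℕ, 3 ≤ l → l ≤ n →
      ((mainP.time (wordLen n) (initSt n l G) : ℕ) : ℝ) ≤
        C * ((n : ℝ) + 1) ^ d * (1.97 : ℝ) ^ n :=
  main_time (H16.time1 H66.mask) (H78.time2 H66.mask) H81.time3 H66.count H78.colorp H65.sizeMat
    H35.constp

theorem mainP_smp : mainP.smp 40 = true := by decide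

theorem initSt_tame' (w n l : ℕ) (G : SimpleGraph (Fin n)) [DecidableRel G.Adj] (hw : n + 2 ≤ w)
    (hln : l ≤ n) : Tame w (initSt n l G) := by
  have hn : n < 2 ^ w := by
    calc n < 2 ^ n := Nat.lt_two_pow_self
      _ ≤ 2 ^ w := Nat.pow_le_pow_right (by norm_num) (by omega)
  have hnz : (n : ℤ) < 2 ^ w := by exact_mod_cast hn
  have hlz : (l : ℤ) < 2 ^ w := lt_of_le_of_lt (by exact_mod_cast hln) hnz
  have h1 : (1 : ℤ) < 2 ^ w := one_lt_pow₀ (by norm_num) (by omega)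
  have h0 : (0 : ℤ) < 2 ^ w := by positivity
  refine ⟨fun j => ?_, fun a k => ?_⟩
  · have e : (initSt n l G).r j = if j = 0 then (n : ℤ) else if j = 1 then (l : ℤ) else 0 := rfl
    rw [e]
    split_ifs
    · exact ⟨Int.natCast_nonneg n, hnz⟩
    · exact ⟨Int.natCast_nonneg l, hlz⟩
    · exact ⟨le_rfl, h0⟩
  · have e : (initSt n l G).m a k = 0 ∨ (initSt n l G).m a k = 1 := by
      simp only [initSt]
      split_ifs
      · exact Or.inr rfl
      · exact Or.inl rfl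
      · exact Or.inl rfl
    rcases e with e | e <;> rw [e]
    · exact ⟨le_rfl, h0⟩
    · exact ⟨by norm_num, h1⟩

theorem initSt_tame (n l : ℕ) (G : SimpleGraph (Fin n)) [DecidableRel G.Adj] (hln : l ≤ n) :
    Tame (wordLen n) (initSt n l G) :=
  initSt_tame' _ n l G (wordLen_ge n) hln

theorem btime_ok : ∃ C d : ℕ, ∀ (n : ℕ) (G : SimpleGraph (Fin n)) [DecidableRel G.Adj],
    G.Colorable 2 → ∀ l : ℕ, 3 ≤ l → l ≤ n →
      ((mainP.btime (wordLen n) (initSt n l G) : ℕ) : ℝ) ≤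
        C * ((n : ℝ) + 1) ^ d * (1.97 : ℝ) ^ n := by
  obtain ⟨C, d, h⟩ := time_ok
  obtain ⟨K, hK⟩ : ∃ K, K = mainP.sz + 1 := ⟨_, rfl⟩
  refine ⟨C * (4 * (128 * K + 2)) ^ 2, d + 8, fun n G _ h2 l hl3 hln => ?_⟩
  have h1 := h n G h2 l hl3 hln
  have hw1 : 1 ≤ wordLen n := by have := wordLen_ge n; omega
  have hN : 40 < 2 ^ wordLen n := by
    have h128 : 6 ≤ wordLen n := by
      unfold wordLen
      have : 1 ≤ (n + 2) ^ 4 := Nat.one_le_pow _ _ (by omega)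
      omega
    calc 40 < 2 ^ 6 := by norm_num
      _ ≤ 2 ^ wordLen n := Nat.pow_le_pow_right (by norm_num) h128
  have hb := Prog.btime_le (w := wordLen n) (N := 40) (K := K) hw1 hN (by omega) mainP mainP_smp
    (by omega) (initSt n l G) (initSt_tame n l G hln)
  have hQ : (4 * (wordLen n * K + 2)) ^ 2 ≤ (4 * (128 * K + 2)) ^ 2 * (n + 1) ^ 8 := by
    have h3 : wordLen n ≤ 128 * (n + 1) ^ 4 := by
      unfold wordLen
      have h4 : (n + 2) ^ 4 ≤ (2 * (n + 1)) ^ 4 := Nat.pow_le_pow_left (by omega) 4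
      have h5 : (2 * (n + 1)) ^ 4 = 16 * (n + 1) ^ 4 := by ring
      omega
    have h6 : 1 ≤ (n + 1) ^ 4 := Nat.one_le_pow _ _ (by omega)
    have h7 : 4 * (wordLen n * K + 2) ≤ 4 * (128 * K + 2) * (n + 1) ^ 4 := by
      calc 4 * (wordLen n * K + 2) ≤ 4 * (128 * (n + 1) ^ 4 * K + 2 * (n + 1) ^ 4) := by
            refine Nat.mul_le_mul_left _ (Nat.add_le_add (Nat.mul_le_mul_right _ h3) (by omega))
        _ = 4 * (128 * K + 2) * (n + 1) ^ 4 := by ring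
    calc (4 * (wordLen n * K + 2)) ^ 2 ≤ (4 * (128 * K + 2) * (n + 1) ^ 4) ^ 2 :=
          Nat.pow_le_pow_left h7 2
      _ = (4 * (128 * K + 2)) ^ 2 * (n + 1) ^ 8 := by ring
  have hb2 : (mainP.btime (wordLen n) (initSt n l G) : ℝ) ≤
      (mainP.time (wordLen n) (initSt n l G) : ℝ) *
        ((((4 * (128 * K + 2)) ^ 2 * (n + 1) ^ 8 : ℕ)) : ℝ) := by
    exact_mod_cast hb.trans (Nat.mul_le_mul_left _ hQ)
  refine hb2.trans ?_
  calc (mainP.time (wordLen n) (initSt n l G) : ℝ) *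
        ((((4 * (128 * K + 2)) ^ 2 * (n + 1) ^ 8 : ℕ)) : ℝ)
      ≤ (C * ((n : ℝ) + 1) ^ d * (1.97 : ℝ) ^ n) *
        ((((4 * (128 * K + 2)) ^ 2 * (n + 1) ^ 8 : ℕ)) : ℝ) :=
        mul_le_mul_of_nonneg_right h1 (Nat.cast_nonneg _)
    _ = _ := by push_cast; ring

end Pool.Agent.Lib.MP_b2ebfc_lc
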