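import Pool.Agent.Lib.MP_b2ebfc_lc.Code

/-!
# Statements of the program modules
-/

set_option autoImplicit false

namespace Pool.Agent.Lib.MP_b2ebfc_lc

open Finset

/-- `z = 2^(8 (n+2)²)`. -/
def zval (n : ℕ) : ℤ := 2 ^ (8 * (n + 2) ^ 2)

/-- The number of neighbours of the column `x` in `P`. -/
def cnb {a b : ℕ} (M : Fin a → Fin b → ℤ) (P : Finset (Fin a)) (x : Fin b) : ℤ := ∑ i ∈ P, M i x

/-- The integer determinant `det([x=y] (1 + z w_x) + t c_x c_y K_Q)`. -/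
noncomputable def detZ {a b : ℕ} (M : Fin a → Fin b → ℤ) (z t : ℤ) (wt cc : Fin b → ℤ)
    (Q : Finset (Fin a)) : ℤ :=
  (Matrix.of fun x y : Fin b =>
    (if x = y then 1 + z * wt x else 0) + t * (cc x * cc y * gram M Q x y)).det

/-- The determinant of approach I. -/
noncomputable def detI {a b : ℕ} (M : Fin a → Fin b → ℤ) (z : ℤ) (P P' : Finset (Fin a)) : ℤ :=
  detZ M z (z ^ (b + 1)) (fun x => cnb M P x * cnb M P' x) (fun _ => 1) (P ∪ P')ᶜ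

/-- The determinant of approach II. -/
noncomputable def detII {a b : ℕ} (M : Fin a → Fin b → ℤ) (z : ℤ) (U : Finset (Fin a))
    (W : Finset (Fin b)) : ℤ :=
  detZ M z (z ^ (b + 1)) (fun _ => 0) (fun x => if x ∈ W then 0 else 1) Uᶜ

/-- KRON. The determinants as Kronecker substitutions of the coefficient sums. -/
def KronStatement : Prop :=
  ∀ (a b : ℕ) (M : Fin a → Fin b → ℤ) (z : ℤ),
    (∀ P P' : Finset (Fin a), detI M z P P' =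
      ∑ h ∈ range ((b + 1) * (b + 1)), coefI M P P' (h / (b + 1)) (h % (b + 1)) * z ^ h) ∧
    (∀ (U : Finset (Fin a)) (W : Finset (Fin b)), detII M z U W =
      ∑ h ∈ range ((b + 1) * (b + 1)),
        (if h % (b + 1) = 0 then coefII M U W (h / (b + 1)) else 0) * z ^ h)

/-- What the main loops need to know about the state. -/
structure Ctx (n a b : ℕ) (M : Fin a → Fin b → ℤ) (s : St) : Prop where
  ha : s.r 3 = a
  hb : s.r 4 = b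
  hab : a + b = n
  hb1 : 1 ≤ b
  hz : s.r 7 = zval n
  ht : s.r 12 = zval n ^ (b + 1)
  h10 : s.r 10 = 2 ^ a
  h11 : s.r 11 = 2 ^ b
  h13 : s.r 13 = b - 1
  h15 : s.r 15 = b * b
  hM : ∀ (i : Fin a) (l : Fin b), s.m 3 ((i : ℕ) * b + (l : ℕ)) = M i l
  hM01 : ∀ (i : Fin a) (l : Fin b), M i l = 0 ∨ M i l = 1
  hP2 : ∀ i : ℕ, i ≤ n → s.m 4 i = 2 ^ i
  hP3 : ∀ i : ℕ, i ≤ n → s.m 5 i = 3 ^ i

/-- BIRDP. Correctness of `birdP`. -/
def BirdPStatement : Prop :=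
  ∀ (w b : ℕ) (s : St), 1 ≤ b → s.r 4 = b → s.r 13 = b - 1 → s.r 15 = b * b →
    (((birdP.run w s).r 24 : ℤ) : ZMod (2 ^ w)) =
      (Matrix.of fun i j : Fin b => ((s.m 11 ((i : ℕ) * b + (j : ℕ)) : ℤ) : ZMod (2 ^ w))).det

/-- DETP. Correctness of `detP` (register 20 holds the mask `Z`). -/
def DetPStatement : Prop :=
  ∀ (w n a b : ℕ) (M : Fin a → Fin b → ℤ) (s : St) (Z : ℕ), Ctx n a b M s → Z < 2 ^ a →
    s.r 20 = Z →
    (((detP.run w s).r 24 : ℤ) : ZMod (2 ^ w)) =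
      ((detZ M (zval n) (zval n ^ (b + 1)) (fun x => s.m 10 (x : ℕ)) (fun x => s.m 19 (x : ℕ))
        (maskSet a Z)ᶜ : ℤ) : ZMod (2 ^ w))

/-- APP1P. Approach I: the accumulators after the loop. -/
def App1PStatement : Prop :=
  ∀ (w n a b u₀ : ℕ) (M : Fin a → Fin b → ℤ) (s : St), w = wordLen n →
    Ctx n a b M s → s.r 6 = u₀ → u₀ ≤ a →
    (∀ r : ℕ, s.m 14 r = 0) → (∀ r : ℕ, s.m 15 r = 0) → ∀ r : ℕ, r ≤ u₀ →
    (((app1P.run w s).m 14 r : ℤ) : ZMod (2 ^ w)) =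
      ((∑ P : Finset (Fin a), ∑ P' : Finset (Fin a),
        (if (P ∪ P').card = r ∧ Even (P.card + P'.card) then detI M (zval n) P P' else 0) : ℤ) :
        ZMod (2 ^ w)) ∧
    (((app1P.run w s).m 15 r : ℤ) : ZMod (2 ^ w)) =
      ((∑ P : Finset (Fin a), ∑ P' : Finset (Fin a),
        (if (P ∪ P').card = r ∧ ¬ Even (P.card + P'.card) then detI M (zval n) P P' else 0) : ℤ) :
        ZMod (2 ^ w)) ∧
    (0 ≤ (app1P.run w s).m 14 r ∧ (app1P.run w s).m 14 r < 2 ^ w) ∧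
    (0 ≤ (app1P.run w s).m 15 r ∧ (app1P.run w s).m 15 r < 2 ^ w)

/-- PERMP. The permanents (register 20 holds the mask `U`). -/
def PermPStatement : Prop :=
  ∀ (w n a b : ℕ) (M : Fin a → Fin b → ℤ) (s : St) (U : ℕ), w = wordLen n →
    Ctx n a b M s → U < 2 ^ a →
    s.r 20 = U → ∀ W : ℕ, W < 2 ^ b →
    (((permP.run w s).m 16 W : ℤ) : ZMod (2 ^ w)) =
      ((perm M (maskSet a U) (maskSet b W) : ℤ) : ZMod (2 ^ w))

/-- APP2P. Approach II: the accumulators after the loop. -/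
def App2PStatement : Prop :=
  ∀ (w n a b u₀ k : ℕ) (M : Fin a → Fin b → ℤ) (s : St), w = wordLen n →
    Ctx n a b M s → s.r 6 = u₀ → s.r 5 = k →
    (∀ r : ℕ, s.m 18 r = 0) → ∀ u : ℕ, u₀ < u → u ≤ k →
    (((app2P.run w s).m 18 u : ℤ) : ZMod (2 ^ w)) =
      ((∑ U ∈ powersetCard u (univ : Finset (Fin a)), ∑ W : Finset (Fin b),
        perm M U W ^ 2 * detII M (zval n) U W : ℤ) : ZMod (2 ^ w)) ∧
    (0 ≤ (app2P.run w s).m 18 u ∧ (app2P.run w s).m 18 u < 2 ^ w)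

/-- COLORP. The colouring is proper. -/
def ColorPStatement : Prop :=
  ∀ (w n l : ℕ) (G : SimpleGraph (Fin n)) [DecidableRel G.Adj] (s : St), 2 ≤ w →
    G.Colorable 2 → s.r 0 = n → s.m 0 = (initSt n l G).m 0 → (∀ v : ℤ, s.m 1 v = 0) →
    (∀ v : Fin n, (colorP.run w s).m 1 (v : ℕ) = 1 ∨ (colorP.run w s).m 1 (v : ℕ) = 2) ∧
    (∀ v v' : Fin n, G.Adj v v' → (colorP.run w s).m 1 (v : ℕ) ≠ (colorP.run w s).m 1 (v' : ℕ))

/-- SIZEMAT. Sizes of the parts and biadjacency matrix. -/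
def SizeMatStatement : Prop :=
  ∀ (w n l : ℕ) (G : SimpleGraph (Fin n)) [DecidableRel G.Adj] (s : St), w = wordLen n →
    s.r 0 = n → s.m 0 = (initSt n l G).m 0 →
    (∀ v : Fin n, s.m 1 (v : ℕ) = 1 ∨ s.m 1 (v : ℕ) = 2) →
    (∀ v v' : Fin n, G.Adj v v' → s.m 1 (v : ℕ) ≠ s.m 1 (v' : ℕ)) →
    ∃ (a b : ℕ) (e : Fin a ⊕ Fin b ≃ Fin n), a ≤ b ∧ a + b = n ∧
      (∀ i i' : Fin a, ¬ G.Adj (e (Sum.inl i)) (e (Sum.inl i'))) ∧
      (∀ i i' : Fin b, ¬ G.Adj (e (Sum.inr i)) (e (Sum.inr i'))) ∧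
      (sizesP.run w s).r 3 = a ∧ (sizesP.run w s).r 4 = b ∧
      ∀ (i : Fin a) (h : Fin b),
        (matP.run w (sizesP.run w s)).m 3 ((i : ℕ) * b + (h : ℕ)) =
          if G.Adj (e (Sum.inl i)) (e (Sum.inr h)) then 1 else 0

/-- CONSTP. Constants and tables. -/
def ConstPStatement : Prop :=
  ∀ (w n a b k : ℕ) (s : St), w = wordLen n → s.r 0 = n → s.r 3 = a → s.r 4 = b → s.r 5 = k → k ≤ a → a ≤ b →
    a + b = n → 1 ≤ b →
    ∀ s', s' = constP.run w s →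
    s'.r 7 = zval n ∧ s'.r 12 = zval n ^ (b + 1) ∧ s'.r 10 = 2 ^ a ∧ s'.r 11 = 2 ^ b ∧
    s'.r 13 = b - 1 ∧ s'.r 14 = (b + 1) * (b + 1) ∧ s'.r 15 = b * b ∧ s'.r 17 = k + 1 ∧
    s'.r 18 = n + 1 ∧
    s'.r 6 = (if 13 * a < 12 * b then a else 5 * a / 8 : ℕ) ∧
    (∀ i : ℕ, i ≤ n → s'.m 4 i = 2 ^ i) ∧ (∀ i : ℕ, i ≤ n → s'.m 5 i = 3 ^ i) ∧
    (∀ i : ℕ, i ≤ (b + 1) * (b + 1) → s'.m 7 i = zval n ^ i) ∧
    (∀ i j : ℕ, i ≤ n → j ≤ n → s'.m 6 ((i : ℤ) * (n + 1) + j) = (i.choose j : ℤ))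

/-- FINALP. The final sum, from the contents of the accumulators. -/
def FinalPStatement : Prop :=
  ∀ (w n a b k u₀ : ℕ) (M : Fin a → Fin b → ℤ) (s : St) (N : ℕ → ℤ) (c : ℤ), w = wordLen n →
    Ctx n a b M s → s.r 5 = k → s.r 17 = k + 1 → s.r 18 = n + 1 → s.r 6 = u₀ → 1 ≤ k → k ≤ a →
    a ≤ b →
    (∀ i : ℕ, i ≤ (b + 1) * (b + 1) → s.m 7 i = zval n ^ i) →
    (∀ i j : ℕ, i ≤ n → j ≤ n → s.m 6 ((i : ℤ) * (n + 1) + j) = (i.choose j : ℤ)) →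
    (∀ u : ℕ, u₀ < u → u ≤ k →
      (s.m 18 u / zval n ^ ((b + 1) * (k - u))) % zval n = N u) →
    (∀ u : ℕ, u ≤ u₀ → u ≤ k →
      (∑ r ∈ range (u + 1), (((a - (k - u) - r).choose (u - r) : ℕ) : ℤ) *
        ((s.m 14 r / zval n ^ ((b + 1) * (k - u) + u)) % zval n -
          (s.m 15 r / zval n ^ ((b + 1) * (k - u) + u)) % zval n)) = N u) →
    (∑ u ∈ range (k + 1), (-1 : ℤ) ^ (k - u) * (u : ℤ) * N u = 2 * k * c) →
    0 ≤ c → c < 2 ^ w →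
    (finalP.run w s).r 2 = c

/-- TIME1. The time of approach I. -/
def Time1Statement : Prop :=
  ∃ C d : ℕ, ∀ (w n a b u₀ : ℕ) (M : Fin a → Fin b → ℤ) (s : St), w = wordLen n →
    Ctx n a b M s → s.r 6 = u₀ →
    u₀ ≤ a →
    (app1P.time w s : ℝ) ≤ C * ((n : ℝ) + 1) ^ d *
      (2 ^ a + ∑ r ∈ range (u₀ + 1), ((a.choose r * 3 ^ r : ℕ) : ℝ))

/-- TIME2. The time of approach II. -/
def Time2Statement : Prop :=
  ∃ C d : ℕ, ∀ (w n a b u₀ k : ℕ) (M : Fin a → Fin b → ℤ) (s : St), w = wordLen n →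
    Ctx n a b M s → s.r 6 = u₀ →
    s.r 5 = k → k ≤ a →
    (app2P.time w s : ℝ) ≤ C * ((n : ℝ) + 1) ^ d *
      (2 ^ a + (∑ r ∈ Ioc u₀ a, (a.choose r : ℝ)) * 2 ^ b)

/-- TIME3. The time of the rest. -/
def Time3Statement : Prop :=
  ∃ C d : ℕ, ∀ (w n : ℕ) (s : St), s.r 0 = n →
    colorP.time w s ≤ C * (n + 1) ^ d ∧ sizesP.time w s ≤ C * (n + 1) ^ d ∧
    (0 ≤ s.r 3 → s.r 3 ≤ n → 0 ≤ s.r 4 → s.r 4 ≤ n → matP.time w s ≤ C * (n + 1) ^ d) ∧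
    (0 ≤ s.r 4 → s.r 4 ≤ n → 0 ≤ s.r 5 → s.r 5 ≤ n → constP.time w s ≤ C * (n + 1) ^ d) ∧
    (s.r 17 ≤ n + 1 → finalP.time w s ≤ C * (n + 1) ^ d)

end Pool.Agent.Lib.MP_b2ebfc_lc
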