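import Mathlib

/-!
# A structured RAM language

Registers and array cells hold machine words: integers in `[0, 2^w)`.  Expressions are evaluated
exactly over the integers; the value stored by an assignment is reduced modulo `2^w`.
`for` loops have a bound that is evaluated once, before the loop starts, and a loop variable that is
local (its old value is restored after the loop).
There are two measures of time.  `cost` and `time` count the elementary operations: every node of
every evaluated expression, every statement and every iteration.  `bcost` and `btime` charge every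
elementary operation the square of the total number of bits of its operands, of its result and of
the addresses that it uses.
-/

set_option autoImplicit false

namespace Pool.Agent.Lib.MP_b2ebfc_lc

/-- Expressions. -/
inductive Expr where
  | const (c : ℤ)
  | reg (i : ℕ)
  | arr (a : ℕ) (e : Expr)
  | add (e f : Expr)
  | sub (e f : Expr)
  | mul (e f : Expr)
  | div (e f : Expr)
  | mod (e f : Expr)
  /-- `cond e f g h` is `if e < f then g else h`. -/
  | cond (e f g h : Expr)
  /-- `sum i e f` is the sum of `f` over `i = 0, 1, ..., e - 1`. -/
  | sum (i : ℕ) (e f : Expr)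

/-- The state: registers and arrays. -/
structure St where
  r : ℕ → ℤ
  m : ℕ → ℤ → ℤ

/-- Change a register. -/
def St.setR (s : St) (i : ℕ) (v : ℤ) : St := ⟨Function.update s.r i v, s.m⟩

/-- Change an array cell. -/
def St.setM (s : St) (a : ℕ) (k : ℤ) (v : ℤ) : St :=
  ⟨s.r, Function.update s.m a (Function.update (s.m a) k v)⟩

/-- The value of an expression. -/
def Expr.eval : Expr → St → ℤ
  | .const c, _ => c
  | .reg i, s => s.r i
  | .arr a e, s => s.m a (e.eval s)
  | .add e f, s => e.eval s + f.eval s
  | .sub e f, s => e.eval s - f.eval s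
  | .mul e f, s => e.eval s * f.eval s
  | .div e f, s => e.eval s / f.eval s
  | .mod e f, s => e.eval s % f.eval s
  | .cond e f g h, s => if e.eval s < f.eval s then g.eval s else h.eval s
  | .sum i e f, s => ∑ k ∈ Finset.range (e.eval s).toNat, f.eval (s.setR i k)

/-- The number of elementary operations used to evaluate an expression. -/
def Expr.cost : Expr → St → ℕ
  | .const _, _ => 1
  | .reg _, _ => 1
  | .arr _ e, s => e.cost s + 1
  | .add e f, s => e.cost s + f.cost s + 1
  | .sub e f, s => e.cost s + f.cost s + 1
  | .mul e f, s => e.cost s + f.cost s + 1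
  | .div e f, s => e.cost s + f.cost s + 1
  | .mod e f, s => e.cost s + f.cost s + 1
  | .cond e f g h, s =>
      e.cost s + f.cost s + (if e.eval s < f.eval s then g.cost s else h.cost s) + 1
  | .sum i e f, s =>
      e.cost s + (∑ k ∈ Finset.range (e.eval s).toNat, (f.cost (s.setR i k) + 1)) + 1

/-- Programs. -/
inductive Prog where
  | skip
  | set (i : ℕ) (e : Expr)
  /-- `put a e f` is the assignment `a[e] := f`. -/
  | put (a : ℕ) (e f : Expr)
  | seq (p q : Prog)
  /-- `ite e f p q` is `if e < f then p else q`. -/
  | ite (e f : Expr) (p q : Prog)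
  /-- `loop i e p` is `for i = 0, 1, ..., e - 1 do p`. -/
  | loop (i : ℕ) (e : Expr) (p : Prog)

/-- The state after `k` iterations of a loop with body `b` (a function on states). -/
def iter (b : St → St) (i : ℕ) (s : St) : ℕ → St
  | 0 => s
  | k + 1 => b ((iter b i s k).setR i k)

/-- Running a program on machine words of `w` bits. -/
def Prog.run (w : ℕ) : Prog → St → St
  | .skip, s => s
  | .set i e, s => s.setR i (e.eval s % 2 ^ w)
  | .put a e f, s => s.setM a (e.eval s) (f.eval s % 2 ^ w)
  | .seq p q, s => q.run w (p.run w s)
  | .ite e f p q, s => if e.eval s < f.eval s then p.run w s else q.run w s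
  | .loop i e p, s => (iter (p.run w) i s (e.eval s).toNat).setR i (s.r i)

/-- The number of elementary operations executed by a program. -/
def Prog.time (w : ℕ) : Prog → St → ℕ
  | .skip, _ => 1
  | .set _ e, s => e.cost s + 1
  | .put _ e f, s => e.cost s + f.cost s + 1
  | .seq p q, s => p.time w s + q.time w (p.run w s) + 1
  | .ite e f p q, s =>
      e.cost s + f.cost s + (if e.eval s < f.eval s then p.time w s else q.time w s) + 1
  | .loop i e p, s =>
      e.cost s + (∑ k ∈ Finset.range (e.eval s).toNat,
        (p.time w ((iter (p.run w) i s k).setR i k) + 1)) + 1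

/-- The number of bits of an integer. -/
def blen (x : ℤ) : ℕ := Nat.size x.natAbs + 1

/-- The bit cost of the evaluation of an expression. -/
def Expr.bcost : Expr → St → ℕ
  | .const c, _ => blen c ^ 2
  | .reg i, s => (Nat.size i + blen (s.r i)) ^ 2
  | .arr a e, s =>
      e.bcost s + (Nat.size a + blen (e.eval s) + blen (s.m a (e.eval s))) ^ 2
  | .add e f, s => e.bcost s + f.bcost s +
      (blen (e.eval s) + blen (f.eval s) + blen (e.eval s + f.eval s)) ^ 2
  | .sub e f, s => e.bcost s + f.bcost s +
      (blen (e.eval s) + blen (f.eval s) + blen (e.eval s - f.eval s)) ^ 2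
  | .mul e f, s => e.bcost s + f.bcost s +
      (blen (e.eval s) + blen (f.eval s) + blen (e.eval s * f.eval s)) ^ 2
  | .div e f, s => e.bcost s + f.bcost s +
      (blen (e.eval s) + blen (f.eval s) + blen (e.eval s / f.eval s)) ^ 2
  | .mod e f, s => e.bcost s + f.bcost s +
      (blen (e.eval s) + blen (f.eval s) + blen (e.eval s % f.eval s)) ^ 2
  | .cond e f g h, s => e.bcost s + f.bcost s +
      (if e.eval s < f.eval s then g.bcost s else h.bcost s) +
      (blen (e.eval s) + blen (f.eval s)) ^ 2
  | .sum i e f, s => e.bcost s +
      (∑ k ∈ Finset.range (e.eval s).toNat, (f.bcost (s.setR i k) +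
        (Nat.size i + blen k + blen (f.eval (s.setR i k)) +
          blen (∑ h ∈ Finset.range (k + 1), f.eval (s.setR i h))) ^ 2)) +
      (Nat.size i + blen (e.eval s)) ^ 2

/-- The bit cost of a run of a program on words of `w` bits. -/
def Prog.btime (w : ℕ) : Prog → St → ℕ
  | .skip, _ => 1
  | .set i e, s => e.bcost s + (Nat.size i + blen (e.eval s) + w) ^ 2
  | .put a e f, s => e.bcost s + f.bcost s +
      (Nat.size a + blen (e.eval s) + blen (f.eval s) + w) ^ 2
  | .seq p q, s => p.btime w s + q.btime w (p.run w s) + 1
  | .ite e f p q, s => e.bcost s + f.bcost s +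
      (if e.eval s < f.eval s then p.btime w s else q.btime w s) +
      (blen (e.eval s) + blen (f.eval s)) ^ 2
  | .loop i e p, s => e.bcost s +
      (∑ k ∈ Finset.range (e.eval s).toNat, (p.btime w ((iter (p.run w) i s k).setR i k) +
        (Nat.size i + blen k) ^ 2)) +
      (Nat.size i + blen (e.eval s) + w) ^ 2

/-- The word length. -/
def wordLen (n : ℕ) : ℕ := 8 * (n + 2) ^ 4

/-- The initial state: `n`, `l` and the adjacency matrix; everything else is 0. -/
def initSt (n l : ℕ) (G : SimpleGraph (Fin n)) [DecidableRel G.Adj] : St where
  r := fun i => if i = 0 then n else if i = 1 then l else 0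
  m := fun a k => if a = 0 then
      (if ∃ v v' : Fin n, k = (v : ℤ) * n + v' ∧ G.Adj v v' then 1 else 0) else 0

end Pool.Agent.Lib.MP_b2ebfc_lc
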