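import Pool.Agent.Lib.MP_b2ebfc_lc.Lang

/-!
# Basic lemmas about the RAM language: frames, time bounds, tabulation
-/

set_option autoImplicit false

namespace Pool.Agent.Lib.MP_b2ebfc_lc

open Finset

/-! ### State updates -/

@[simp] theorem St.setR_r (s : St) (i : ℕ) (v : ℤ) (j : ℕ) :
    (s.setR i v).r j = if j = i then v else s.r j := by
  simp [St.setR, Function.update_apply]

@[simp] theorem St.setR_m (s : St) (i : ℕ) (v : ℤ) : (s.setR i v).m = s.m := rfl

@[simp] theorem St.setM_r (s : St) (a : ℕ) (k v : ℤ) : (s.setM a k v).r = s.r := rfl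

@[simp] theorem St.setM_m (s : St) (a : ℕ) (k v : ℤ) (c : ℕ) :
    (s.setM a k v).m c = if c = a then Function.update (s.m a) k v else s.m c := by
  simp [St.setM, Function.update_apply]

theorem St.ext' {s s' : St} (h1 : ∀ j, s.r j = s'.r j) (h2 : ∀ a, s.m a = s'.m a) : s = s' := by
  cases s; cases s'
  simp only [St.mk.injEq]
  exact ⟨funext h1, funext h2⟩

theorem St.setR_self (s : St) (i : ℕ) : s.setR i (s.r i) = s := by
  refine St.ext' (fun j => ?_) (fun a => rfl)
  simp only [St.setR_r]
  split_ifs with h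
  · rw [h]
  · rfl

theorem St.setR_setR (s : St) (i : ℕ) (v v' : ℤ) : (s.setR i v).setR i v' = s.setR i v' := by
  refine St.ext' (fun j => ?_) (fun a => rfl)
  simp only [St.setR_r]
  split_ifs <;> rfl

theorem St.setR_comm (s : St) (i j : ℕ) (v v' : ℤ) (h : i ≠ j) :
    (s.setR i v).setR j v' = (s.setR j v').setR i v := by
  refine St.ext' (fun l => ?_) (fun a => rfl)
  simp only [St.setR_r]
  split_ifs with h1 h2 <;> first | rfl | (exact absurd (h2.symm.trans h1) h)

/-! ### Reads and writes -/

/-- Does the value of the expression depend on the register `j`? -/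
def Expr.rdR : Expr → ℕ → Bool
  | .const _, _ => false
  | .reg i, j => decide (j = i)
  | .arr _ e, j => e.rdR j
  | .add e f, j => e.rdR j || f.rdR j
  | .sub e f, j => e.rdR j || f.rdR j
  | .mul e f, j => e.rdR j || f.rdR j
  | .div e f, j => e.rdR j || f.rdR j
  | .mod e f, j => e.rdR j || f.rdR j
  | .cond e f g h, j => e.rdR j || f.rdR j || g.rdR j || h.rdR j
  | .sum i e f, j => e.rdR j || (decide (j ≠ i) && f.rdR j)

/-- Does the value of the expression depend on the array `a`? -/
def Expr.rdA : Expr → ℕ → Bool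
  | .const _, _ => false
  | .reg _, _ => false
  | .arr b e, a => decide (a = b) || e.rdA a
  | .add e f, a => e.rdA a || f.rdA a
  | .sub e f, a => e.rdA a || f.rdA a
  | .mul e f, a => e.rdA a || f.rdA a
  | .div e f, a => e.rdA a || f.rdA a
  | .mod e f, a => e.rdA a || f.rdA a
  | .cond e f g h, a => e.rdA a || f.rdA a || g.rdA a || h.rdA a
  | .sum _ e f, a => e.rdA a || f.rdA a

theorem Expr.eval_congr (e : Expr) : ∀ (s s' : St), (∀ j, e.rdR j = true → s.r j = s'.r j) →
    (∀ a, e.rdA a = true → s.m a = s'.m a) → e.eval s = e.eval s' := by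
  induction e with
  | const c => intros; rfl
  | reg i => intro s s' h1 h2; exact h1 i (by simp [Expr.rdR])
  | arr a e ih =>
    intro s s' h1 h2
    simp only [Expr.eval]
    rw [h2 a (by simp [Expr.rdA]), ih s s' (fun j hj => h1 j (by simpa [Expr.rdR] using hj))
      (fun b hb => h2 b (by simp [Expr.rdA, hb]))]
  | add e f ih1 ih2 =>
    intro s s' h1 h2
    simp only [Expr.eval]
    rw [ih1 s s' (fun j hj => h1 j (by simp [Expr.rdR, hj]))
      (fun b hb => h2 b (by simp [Expr.rdA, hb])),
      ih2 s s' (fun j hj => h1 j (by simp [Expr.rdR, hj]))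
      (fun b hb => h2 b (by simp [Expr.rdA, hb]))]
  | sub e f ih1 ih2 =>
    intro s s' h1 h2
    simp only [Expr.eval]
    rw [ih1 s s' (fun j hj => h1 j (by simp [Expr.rdR, hj]))
      (fun b hb => h2 b (by simp [Expr.rdA, hb])),
      ih2 s s' (fun j hj => h1 j (by simp [Expr.rdR, hj]))
      (fun b hb => h2 b (by simp [Expr.rdA, hb]))]
  | mul e f ih1 ih2 =>
    intro s s' h1 h2
    simp only [Expr.eval]
    rw [ih1 s s' (fun j hj => h1 j (by simp [Expr.rdR, hj]))
      (fun b hb => h2 b (by simp [Expr.rdA, hb])),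
      ih2 s s' (fun j hj => h1 j (by simp [Expr.rdR, hj]))
      (fun b hb => h2 b (by simp [Expr.rdA, hb]))]
  | div e f ih1 ih2 =>
    intro s s' h1 h2
    simp only [Expr.eval]
    rw [ih1 s s' (fun j hj => h1 j (by simp [Expr.rdR, hj]))
      (fun b hb => h2 b (by simp [Expr.rdA, hb])),
      ih2 s s' (fun j hj => h1 j (by simp [Expr.rdR, hj]))
      (fun b hb => h2 b (by simp [Expr.rdA, hb]))]
  | mod e f ih1 ih2 =>
    intro s s' h1 h2
    simp only [Expr.eval]
    rw [ih1 s s' (fun j hj => h1 j (by simp [Expr.rdR, hj]))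
      (fun b hb => h2 b (by simp [Expr.rdA, hb])),
      ih2 s s' (fun j hj => h1 j (by simp [Expr.rdR, hj]))
      (fun b hb => h2 b (by simp [Expr.rdA, hb]))]
  | cond e f g h ih1 ih2 ih3 ih4 =>
    intro s s' h1 h2
    simp only [Expr.eval]
    rw [ih1 s s' (fun j hj => h1 j (by simp [Expr.rdR, hj]))
      (fun b hb => h2 b (by simp [Expr.rdA, hb])),
      ih2 s s' (fun j hj => h1 j (by simp [Expr.rdR, hj]))
      (fun b hb => h2 b (by simp [Expr.rdA, hb])),
      ih3 s s' (fun j hj => h1 j (by simp [Expr.rdR, hj]))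
      (fun b hb => h2 b (by simp [Expr.rdA, hb])),
      ih4 s s' (fun j hj => h1 j (by simp [Expr.rdR, hj]))
      (fun b hb => h2 b (by simp [Expr.rdA, hb]))]
  | sum i e f ih1 ih2 =>
    intro s s' h1 h2
    simp only [Expr.eval]
    rw [ih1 s s' (fun j hj => h1 j (by simp [Expr.rdR, hj]))
      (fun b hb => h2 b (by simp [Expr.rdA, hb]))]
    refine Finset.sum_congr rfl fun k _ => ih2 _ _ (fun j hj => ?_)
      (fun b hb => h2 b (by simp [Expr.rdA, hb]))
    simp only [St.setR_r]
    split_ifs with hji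
    · rfl
    · exact h1 j (by simp [Expr.rdR, hj, hji])

/-- May the program write to the register `j`? -/
def Prog.wrR : Prog → ℕ → Bool
  | .skip, _ => false
  | .set i _, j => decide (j = i)
  | .put _ _ _, _ => false
  | .seq p q, j => p.wrR j || q.wrR j
  | .ite _ _ p q, j => p.wrR j || q.wrR j
  | .loop i _ p, j => decide (j ≠ i) && p.wrR j

/-- May the program write to the array `a`? -/
def Prog.wrA : Prog → ℕ → Bool
  | .skip, _ => false
  | .set _ _, _ => false
  | .put b _ _, a => decide (a = b)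
  | .seq p q, a => p.wrA a || q.wrA a
  | .ite _ _ p q, a => p.wrA a || q.wrA a
  | .loop _ _ p, a => p.wrA a

theorem iter_r {b : St → St} {i j : ℕ} (hb : ∀ s, (b s).r j = s.r j) (hj : j ≠ i) (s : St)
    (k : ℕ) : (iter b i s k).r j = s.r j := by
  induction k with
  | zero => rfl
  | succ k ih => simp only [iter]; rw [hb, St.setR_r, if_neg hj, ih]

theorem iter_m {b : St → St} {i a : ℕ} (hb : ∀ s, (b s).m a = s.m a) (s : St)
    (k : ℕ) : (iter b i s k).m a = s.m a := by
  induction k with
  | zero => rfl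
  | succ k ih => simp only [iter]; rw [hb, St.setR_m, ih]

theorem Prog.run_r (w : ℕ) (p : Prog) (j : ℕ) : p.wrR j = false → ∀ s : St,
    (p.run w s).r j = s.r j := by
  induction p with
  | skip => intros; rfl
  | set i e =>
    intro h s
    have hj : j ≠ i := by simpa [Prog.wrR] using h
    simp [Prog.run, hj]
  | put a e f => intros; rfl
  | seq p q ih1 ih2 =>
    intro h s
    simp only [Prog.wrR, Bool.or_eq_false_iff] at h
    simp only [Prog.run]
    rw [ih2 h.2, ih1 h.1]
  | ite e f p q ih1 ih2 =>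
    intro h s
    simp only [Prog.wrR, Bool.or_eq_false_iff] at h
    simp only [Prog.run]
    split_ifs
    · exact ih1 h.1 s
    · exact ih2 h.2 s
  | loop i e p ih =>
    intro h s
    simp only [Prog.run, St.setR_r]
    split_ifs with hji
    · rw [hji]
    · have hp : p.wrR j = false := by simpa [Prog.wrR, hji] using h
      exact iter_r (fun s => ih hp s) hji s _

theorem Prog.run_m (w : ℕ) (p : Prog) (a : ℕ) : p.wrA a = false → ∀ s : St,
    (p.run w s).m a = s.m a := by
  induction p with
  | skip => intros; rfl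
  | set i e => intros; rfl
  | put b e f =>
    intro h s
    have hj : a ≠ b := by simpa [Prog.wrA] using h
    simp [Prog.run, hj]
  | seq p q ih1 ih2 =>
    intro h s
    simp only [Prog.wrA, Bool.or_eq_false_iff] at h
    simp only [Prog.run]
    rw [ih2 h.2, ih1 h.1]
  | ite e f p q ih1 ih2 =>
    intro h s
    simp only [Prog.wrA, Bool.or_eq_false_iff] at h
    simp only [Prog.run]
    split_ifs
    · exact ih1 h.1 s
    · exact ih2 h.2 s
  | loop i e p ih =>
    intro h s
    simp only [Prog.run, St.setR_m]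
    exact iter_m (fun s => ih h s) s _

/-! ### Time bounds -/

/-- All sums are bounded by a register of `L`, and no bound variable is in `L`. -/
def Expr.ok (L : List ℕ) : Expr → Bool
  | .const _ => true
  | .reg _ => true
  | .arr _ e => e.ok L
  | .add e f => e.ok L && f.ok L
  | .sub e f => e.ok L && f.ok L
  | .mul e f => e.ok L && f.ok L
  | .div e f => e.ok L && f.ok L
  | .mod e f => e.ok L && f.ok L
  | .cond e f g h => e.ok L && f.ok L && g.ok L && h.ok L
  | .sum i (.reg j) f => decide (j ∈ L) && decide (i ∉ L) && f.ok L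
  | .sum _ _ _ => false

/-- The bound for the cost, if all sums have at most `B` terms. -/
def Expr.tb (B : ℕ) : Expr → ℕ
  | .const _ => 1
  | .reg _ => 1
  | .arr _ e => e.tb B + 1
  | .add e f => e.tb B + f.tb B + 1
  | .sub e f => e.tb B + f.tb B + 1
  | .mul e f => e.tb B + f.tb B + 1
  | .div e f => e.tb B + f.tb B + 1
  | .mod e f => e.tb B + f.tb B + 1
  | .cond e f g h => e.tb B + f.tb B + (g.tb B + h.tb B) + 1
  | .sum _ _ f => 1 + B * (f.tb B + 1) + 1

theorem Expr.cost_le (L : List ℕ) (B : ℕ) (e : Expr) : e.ok L = true → ∀ s : St,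
    (∀ j ∈ L, s.r j ≤ B) → e.cost s ≤ e.tb B := by
  induction e with
  | const c => intros; exact le_rfl
  | reg i => intros; exact le_rfl
  | arr a e ih =>
    intro h s hs
    simp only [Expr.cost, Expr.tb]
    have := ih h s hs
    omega
  | add e f ih1 ih2 =>
    intro h s hs
    simp only [Expr.ok, Bool.and_eq_true] at h
    simp only [Expr.cost, Expr.tb]
    have := ih1 h.1 s hs
    have := ih2 h.2 s hs
    omega
  | sub e f ih1 ih2 =>
    intro h s hs
    simp only [Expr.ok, Bool.and_eq_true] at h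
    simp only [Expr.cost, Expr.tb]
    have := ih1 h.1 s hs
    have := ih2 h.2 s hs
    omega
  | mul e f ih1 ih2 =>
    intro h s hs
    simp only [Expr.ok, Bool.and_eq_true] at h
    simp only [Expr.cost, Expr.tb]
    have := ih1 h.1 s hs
    have := ih2 h.2 s hs
    omega
  | div e f ih1 ih2 =>
    intro h s hs
    simp only [Expr.ok, Bool.and_eq_true] at h
    simp only [Expr.cost, Expr.tb]
    have := ih1 h.1 s hs
    have := ih2 h.2 s hs
    omega
  | mod e f ih1 ih2 =>
    intro h s hs
    simp only [Expr.ok, Bool.and_eq_true] at h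
    simp only [Expr.cost, Expr.tb]
    have := ih1 h.1 s hs
    have := ih2 h.2 s hs
    omega
  | cond e f g k ih1 ih2 ih3 ih4 =>
    intro h s hs
    simp only [Expr.ok, Bool.and_eq_true] at h
    simp only [Expr.cost, Expr.tb]
    have := ih1 h.1.1.1 s hs
    have := ih2 h.1.1.2 s hs
    have := ih3 h.1.2 s hs
    have := ih4 h.2 s hs
    split_ifs <;> omega
  | sum i e f ih1 ih2 =>
    intro h s hs
    cases e with
    | reg j =>
      simp only [Expr.ok, Bool.and_eq_true, decide_eq_true_eq] at h
      simp only [Expr.cost, Expr.tb, Expr.eval]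
      have h1 : ∑ k ∈ range (s.r j).toNat, (f.cost (s.setR i k) + 1) ≤ B * (f.tb B + 1) := by
        calc ∑ k ∈ range (s.r j).toNat, (f.cost (s.setR i k) + 1)
            ≤ ∑ _k ∈ range (s.r j).toNat, (f.tb B + 1) := by
              refine Finset.sum_le_sum fun k _ => Nat.add_le_add_right (ih2 h.2 _ fun l hl => ?_) 1
              rw [St.setR_r, if_neg]
              · exact hs l hl
              · rintro rfl; exact h.1.2 hl
          _ = (s.r j).toNat * (f.tb B + 1) := by simp
          _ ≤ B * (f.tb B + 1) := by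
              refine Nat.mul_le_mul_right _ ?_
              have := hs j h.1.1
              omega
      omega
    | _ => simp [Expr.ok] at h

/-- All loops and sums are bounded by registers of `L`, which are never written. -/
def Prog.ok (L : List ℕ) : Prog → Bool
  | .skip => true
  | .set i e => decide (i ∉ L) && e.ok L
  | .put _ e f => e.ok L && f.ok L
  | .seq p q => p.ok L && q.ok L
  | .ite e f p q => e.ok L && f.ok L && p.ok L && q.ok L
  | .loop i (.reg j) p => decide (j ∈ L) && decide (i ∉ L) && p.ok L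
  | .loop _ _ _ => false

/-- The bound for the time, if all loops and sums have at most `B` iterations. -/
def Prog.tb (B : ℕ) : Prog → ℕ
  | .skip => 1
  | .set _ e => e.tb B + 1
  | .put _ e f => e.tb B + f.tb B + 1
  | .seq p q => p.tb B + q.tb B + 1
  | .ite e f p q => e.tb B + f.tb B + (p.tb B + q.tb B) + 1
  | .loop _ _ p => 1 + B * (p.tb B + 1) + 1

theorem Prog.ok_wrR (L : List ℕ) (p : Prog) : p.ok L = true → ∀ j ∈ L, p.wrR j = false := by
  induction p with
  | skip => intros; rfl
  | set i e =>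
    intro h j hj
    simp only [Prog.ok, Bool.and_eq_true, decide_eq_true_eq] at h
    simp only [Prog.wrR, decide_eq_false_iff_not]
    rintro rfl; exact h.1 hj
  | put a e f => intros; rfl
  | seq p q ih1 ih2 =>
    intro h j hj
    simp only [Prog.ok, Bool.and_eq_true] at h
    simp [Prog.wrR, ih1 h.1 j hj, ih2 h.2 j hj]
  | ite e f p q ih1 ih2 =>
    intro h j hj
    simp only [Prog.ok, Bool.and_eq_true] at h
    simp [Prog.wrR, ih1 h.1.2 j hj, ih2 h.2 j hj]
  | loop i e p ih =>
    intro h j hj
    cases e with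
    | reg l =>
      simp only [Prog.ok, Bool.and_eq_true, decide_eq_true_eq] at h
      simp [Prog.wrR, ih h.2 j hj]
    | _ => simp [Prog.ok] at h

theorem Prog.time_le (w : ℕ) (L : List ℕ) (B : ℕ) (p : Prog) : p.ok L = true → ∀ s : St,
    (∀ j ∈ L, s.r j ≤ B) → p.time w s ≤ p.tb B := by
  induction p with
  | skip => intros; exact le_rfl
  | set i e =>
    intro h s hs
    simp only [Prog.ok, Bool.and_eq_true] at h
    simp only [Prog.time, Prog.tb]
    have := e.cost_le L B h.2 s hs
    omega
  | put a e f =>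
    intro h s hs
    simp only [Prog.ok, Bool.and_eq_true] at h
    simp only [Prog.time, Prog.tb]
    have := e.cost_le L B h.1 s hs
    have := f.cost_le L B h.2 s hs
    omega
  | seq p q ih1 ih2 =>
    intro h s hs
    simp only [Prog.ok, Bool.and_eq_true] at h
    simp only [Prog.time, Prog.tb]
    have := ih1 h.1 s hs
    have := ih2 h.2 (p.run w s) (fun j hj => by
      rw [Prog.run_r w p j (Prog.ok_wrR L p h.1 j hj)]; exact hs j hj)
    omega
  | ite e f p q ih1 ih2 =>
    intro h s hs
    simp only [Prog.ok, Bool.and_eq_true] at h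
    simp only [Prog.time, Prog.tb]
    have := e.cost_le L B h.1.1.1 s hs
    have := f.cost_le L B h.1.1.2 s hs
    have := ih1 h.1.2 s hs
    have := ih2 h.2 s hs
    split_ifs <;> omega
  | loop i e p ih =>
    intro h s hs
    cases e with
    | reg j =>
      simp only [Prog.ok, Bool.and_eq_true, decide_eq_true_eq] at h
      simp only [Prog.time, Prog.tb, Expr.eval, Expr.cost]
      have h1 : ∑ k ∈ range (s.r j).toNat,
          (p.time w ((iter (p.run w) i s k).setR i k) + 1) ≤ B * (p.tb B + 1) := by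
        calc ∑ k ∈ range (s.r j).toNat, (p.time w ((iter (p.run w) i s k).setR i k) + 1)
            ≤ ∑ _k ∈ range (s.r j).toNat, (p.tb B + 1) := by
              refine Finset.sum_le_sum fun k _ => Nat.add_le_add_right (ih h.2 _ fun l hl => ?_) 1
              have hli : l ≠ i := by rintro rfl; exact h.1.2 hl
              rw [St.setR_r, if_neg hli,
                iter_r (fun s => Prog.run_r w p l (Prog.ok_wrR L p h.2 l hl) s) hli]
              exact hs l hl
          _ = (s.r j).toNat * (p.tb B + 1) := by simp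
          _ ≤ B * (p.tb B + 1) := by
              refine Nat.mul_le_mul_right _ ?_
              have := hs j h.1.1
              omega
      omega
    | _ => simp [Prog.ok] at h

/-- Size, for the polynomial form of the time bound. -/
def Expr.sz : Expr → ℕ
  | .const _ => 1
  | .reg _ => 1
  | .arr _ e => e.sz + 1
  | .add e f => e.sz + f.sz + 1
  | .sub e f => e.sz + f.sz + 1
  | .mul e f => e.sz + f.sz + 1
  | .div e f => e.sz + f.sz + 1
  | .mod e f => e.sz + f.sz + 1
  | .cond e f g h => e.sz + f.sz + (g.sz + h.sz) + 1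
  | .sum _ _ f => f.sz + 3

/-- Nesting depth of sums. -/
def Expr.dg : Expr → ℕ
  | .const _ => 0
  | .reg _ => 0
  | .arr _ e => e.dg
  | .add e f => max e.dg f.dg
  | .sub e f => max e.dg f.dg
  | .mul e f => max e.dg f.dg
  | .div e f => max e.dg f.dg
  | .mod e f => max e.dg f.dg
  | .cond e f g h => max (max e.dg f.dg) (max g.dg h.dg)
  | .sum _ _ f => f.dg + 1

theorem tb_aux1 (B x y c d i j : ℕ) (hx : x ≤ c * (B + 1) ^ i) (hy : y ≤ d * (B + 1) ^ j) :
    x + y ≤ (c + d) * (B + 1) ^ max i j := by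
  have h1 : (B + 1) ^ i ≤ (B + 1) ^ max i j := Nat.pow_le_pow_right (by omega) (le_max_left _ _)
  have h2 : (B + 1) ^ j ≤ (B + 1) ^ max i j := Nat.pow_le_pow_right (by omega) (le_max_right _ _)
  calc x + y ≤ c * (B + 1) ^ max i j + d * (B + 1) ^ max i j :=
        Nat.add_le_add (hx.trans (Nat.mul_le_mul_left _ h1)) (hy.trans (Nat.mul_le_mul_left _ h2))
    _ = (c + d) * (B + 1) ^ max i j := by ring

theorem tb_aux2 (B x c i : ℕ) (hx : x ≤ c * (B + 1) ^ i) :
    x + 1 ≤ (c + 1) * (B + 1) ^ i := by
  have := Nat.one_le_pow i (B + 1) (by omega)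
  calc x + 1 ≤ c * (B + 1) ^ i + (B + 1) ^ i := Nat.add_le_add hx this
    _ = (c + 1) * (B + 1) ^ i := by ring

theorem tb_aux3 (B x c i : ℕ) (hx : x ≤ c * (B + 1) ^ i) :
    1 + B * (x + 1) + 1 ≤ (c + 3) * (B + 1) ^ (i + 1) := by
  have h1 := tb_aux2 B x c i hx
  have h2 := Nat.one_le_pow (i + 1) (B + 1) (by omega)
  calc 1 + B * (x + 1) + 1 ≤ 1 + (B + 1) * ((c + 1) * (B + 1) ^ i) + 1 := by
        gcongr
        omega
    _ = (c + 1) * (B + 1) ^ (i + 1) + 2 := by ring
    _ ≤ (c + 1) * (B + 1) ^ (i + 1) + 2 * (B + 1) ^ (i + 1) := by omega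
    _ = (c + 3) * (B + 1) ^ (i + 1) := by ring

theorem Expr.tb_le (B : ℕ) (e : Expr) : e.tb B ≤ e.sz * (B + 1) ^ e.dg := by
  induction e with
  | const c => simp [Expr.tb, Expr.sz, Expr.dg]
  | reg i => simp [Expr.tb, Expr.sz, Expr.dg]
  | arr a e ih => exact tb_aux2 _ _ _ _ ih
  | add e f ih1 ih2 => exact tb_aux2 _ _ _ _ (tb_aux1 _ _ _ _ _ _ _ ih1 ih2)
  | sub e f ih1 ih2 => exact tb_aux2 _ _ _ _ (tb_aux1 _ _ _ _ _ _ _ ih1 ih2)
  | mul e f ih1 ih2 => exact tb_aux2 _ _ _ _ (tb_aux1 _ _ _ _ _ _ _ ih1 ih2)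
  | div e f ih1 ih2 => exact tb_aux2 _ _ _ _ (tb_aux1 _ _ _ _ _ _ _ ih1 ih2)
  | mod e f ih1 ih2 => exact tb_aux2 _ _ _ _ (tb_aux1 _ _ _ _ _ _ _ ih1 ih2)
  | cond e f g h ih1 ih2 ih3 ih4 =>
    exact tb_aux2 _ _ _ _ (tb_aux1 _ _ _ _ _ _ _ (tb_aux1 _ _ _ _ _ _ _ ih1 ih2)
      (tb_aux1 _ _ _ _ _ _ _ ih3 ih4))
  | sum i e f ih1 ih2 => exact tb_aux3 _ _ _ _ ih2

/-- Size, for the polynomial form of the time bound. -/
def Prog.sz : Prog → ℕ
  | .skip => 1
  | .set _ e => e.sz + 1
  | .put _ e f => e.sz + f.sz + 1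
  | .seq p q => p.sz + q.sz + 1
  | .ite e f p q => e.sz + f.sz + (p.sz + q.sz) + 1
  | .loop _ _ p => p.sz + 3

/-- Nesting depth of loops and sums. -/
def Prog.dg : Prog → ℕ
  | .skip => 0
  | .set _ e => e.dg
  | .put _ e f => max e.dg f.dg
  | .seq p q => max p.dg q.dg
  | .ite e f p q => max (max e.dg f.dg) (max p.dg q.dg)
  | .loop _ _ p => p.dg + 1

theorem Prog.tb_le (B : ℕ) (p : Prog) : p.tb B ≤ p.sz * (B + 1) ^ p.dg := by
  induction p with
  | skip => simp [Prog.tb, Prog.sz, Prog.dg]
  | set i e => exact tb_aux2 _ _ _ _ (e.tb_le B)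
  | put a e f => exact tb_aux2 _ _ _ _ (tb_aux1 _ _ _ _ _ _ _ (e.tb_le B) (f.tb_le B))
  | seq p q ih1 ih2 => exact tb_aux2 _ _ _ _ (tb_aux1 _ _ _ _ _ _ _ ih1 ih2)
  | ite e f p q ih1 ih2 =>
    exact tb_aux2 _ _ _ _ (tb_aux1 _ _ _ _ _ _ _ (tb_aux1 _ _ _ _ _ _ _ (e.tb_le B)
      (f.tb_le B)) (tb_aux1 _ _ _ _ _ _ _ ih1 ih2))
  | loop i e p ih => exact tb_aux3 _ _ _ _ ih

/-! ### Tabulation -/

/-- `for x < N do G[x] := e`. -/
def tab (x N G : ℕ) (e : Expr) : Prog := .loop x (.reg N) (.put G (.reg x) e)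

theorem run_tab (w x N G : ℕ) (e : Expr) (s : St) (hG : e.rdA G = false) :
    (tab x N G e).run w s = ⟨s.r, Function.update s.m G (fun k =>
      if 0 ≤ k ∧ k < s.r N then e.eval (s.setR x k) % 2 ^ w else s.m G k)⟩ := by
  obtain ⟨b, hb⟩ : ∃ b : St → St, b = (Prog.put G (.reg x) e).run w := ⟨_, rfl⟩
  have hb' : ∀ s', b s' = s'.setM G (s'.r x) (e.eval s' % 2 ^ w) := by
    intro s'; rw [hb]; rfl
  have key : ∀ k : ℕ, (∀ j ≠ x, (iter b x s k).r j = s.r j) ∧
      (iter b x s k).m = Function.update s.m G (fun i =>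
        if 0 ≤ i ∧ i < k then e.eval (s.setR x i) % 2 ^ w else s.m G i) := by
    intro k
    induction k with
    | zero =>
      refine ⟨fun j _ => rfl, ?_⟩
      funext a
      by_cases ha : a = G
      · subst ha
        funext i
        have : ¬ (0 ≤ i ∧ i < ((0 : ℕ) : ℤ)) := by push_cast; omega
        rw [Function.update_self, if_neg this]
        rfl
      · rw [Function.update_of_ne ha]
        rfl
    | succ k ih =>
      refine ⟨fun j hj => ?_, ?_⟩
      · simp only [iter, hb', St.setM_r, St.setR_r, if_neg hj]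
        exact ih.1 j hj
      · have hev : e.eval ((iter b x s k).setR x k) = e.eval (s.setR x k) := by
          refine e.eval_congr _ _ (fun j _ => ?_) (fun a ha => ?_)
          · simp only [St.setR_r]
            split_ifs with hj
            · rfl
            · exact ih.1 j hj
          · have haG : a ≠ G := by rintro rfl; rw [hG] at ha; exact absurd ha (by simp)
            simp only [St.setR_m, ih.2, Function.update_of_ne haG]
        funext a
        by_cases ha : a = G
        · subst ha
          funext i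
          simp only [iter, hb', St.setM_m, if_true, St.setR_m, St.setR_r,
            Function.update_self, Function.update_apply, hev, ih.2]
          by_cases hik : i = (k : ℤ)
          · subst hik
            have : (0 : ℤ) ≤ k ∧ (k : ℤ) < ((k + 1 : ℕ) : ℤ) := by push_cast; omega
            rw [if_pos rfl, if_pos this]
          · simp only [if_neg hik]
            by_cases h2 : 0 ≤ i ∧ i < (k : ℤ)
            · have : 0 ≤ i ∧ i < ((k + 1 : ℕ) : ℤ) := by push_cast; omega
              rw [if_pos h2, if_pos this]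
            · have : ¬ (0 ≤ i ∧ i < ((k + 1 : ℕ) : ℤ)) := by push_cast; omega
              rw [if_neg h2, if_neg this]
        · simp only [iter, hb', St.setM_m, if_neg ha, St.setR_m, ih.2,
            Function.update_of_ne ha]
  have hk := key (s.r N).toNat
  have hrun : (tab x N G e).run w s = (iter b x s (s.r N).toNat).setR x (s.r x) := by
    rw [hb]; rfl
  rw [hrun]
  refine St.ext' (fun j => ?_) (fun a => ?_)
  · simp only [St.setR_r]
    split_ifs with hj
    · rw [hj]
    · exact hk.1 j hj
  · simp only [St.setR_m]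
    rw [hk.2]
    by_cases ha : a = G
    · subst ha
      simp only [Function.update_self]
      funext i
      by_cases h0 : 0 ≤ i ∧ i < s.r N
      · have : 0 ≤ i ∧ i < (((s.r N).toNat : ℕ) : ℤ) := by omega
        rw [if_pos h0, if_pos this]
      · have : ¬ (0 ≤ i ∧ i < (((s.r N).toNat : ℕ) : ℤ)) := by omega
        rw [if_neg h0, if_neg this]
    · simp only [Function.update_of_ne ha]

@[simp] theorem tab_wrR (x N G : ℕ) (e : Expr) (j : ℕ) : (tab x N G e).wrR j = false := by
  simp [tab, Prog.wrR]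

@[simp] theorem tab_wrA (x N G : ℕ) (e : Expr) (a : ℕ) :
    (tab x N G e).wrA a = decide (a = G) := rfl

end Pool.Agent.Lib.MP_b2ebfc_lc
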