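import Pool.Agent.Lib.MP_b2ebfc_lc.MainValue

/-!
# The running time of the program
-/

set_option autoImplicit false

namespace Pool.Agent.Lib.MP_b2ebfc_lc

open Finset

/-- The number of operations. -/
theorem main_time (hT1 : Time1Statement) (hT2 : Time2Statement) (hT3 : Time3Statement)
    (hCt : CountStatement)
    (hCol : ColorPStatement) (hSM : SizeMatStatement) (hCo : ConstPStatement) :
    ∃ C d : ℕ, ∀ (n : ℕ) (G : SimpleGraph (Fin n)) [DecidableRel G.Adj], G.Colorable 2 →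
      ∀ l : ℕ, 3 ≤ l → l ≤ n →
      ((mainP.time (wordLen n) (initSt n l G) : ℕ) : ℝ) ≤
        C * ((n : ℝ) + 1) ^ d * (1.97 : ℝ) ^ n := by
  obtain ⟨C1, d1, hT1⟩ := hT1
  obtain ⟨C2, d2, hT2⟩ := hT2
  obtain ⟨C3, d3, hT3⟩ := hT3
  refine ⟨30 + 5 * C3 + 2 * C1 + 2 * C2, d1 + d2 + d3, fun n G _ h2 l hl3 hln => ?_⟩
  obtain ⟨w, hw⟩ : ∃ w, w = wordLen n := ⟨_, rfl⟩
  rw [← hw]
  obtain ⟨s0, hs0⟩ : ∃ s0, s0 = initSt n l G := ⟨_, rfl⟩
  rw [← hs0]
  have hr0 : s0.r 0 = n := by rw [hs0]; rfl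
  have hr1 : s0.r 1 = l := by rw [hs0]; rfl
  have hm0 : s0.m 0 = (initSt n l G).m 0 := by rw [hs0]
  have hm : ∀ a, a ≠ 0 → ∀ v, s0.m a v = 0 := by
    intro a ha v; rw [hs0]; simp [initSt, ha]
  obtain ⟨s1, hs1⟩ : ∃ s1, s1 = s0.setR 5 ((Expr.div (.reg 1) (.const 2)).eval s0 % 2 ^ w) :=
    ⟨_, rfl⟩
  have hs1r : ∀ j, j ≠ 5 → s1.r j = s0.r j := by intro j hj; rw [hs1]; simp [hj]
  have hs1m : s1.m = s0.m := by rw [hs1]; rfl
  have h5 : s1.r 5 = ((l / 2 : ℕ) : ℤ) := by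
    rw [hs1]
    simp only [St.setR_r, if_true, Expr.eval, hr1]
    have : ((l : ℤ) / 2) = ((l / 2 : ℕ) : ℤ) := by norm_num
    rw [this, hw]
    exact nat_mod_word (by omega)
  have hcol := hCol w n l G s1 (by rw [hw]; have := wordLen_ge n; omega) h2
    (by rw [hs1r 0 (by norm_num)]; exact hr0) (by rw [hs1m]; exact hm0)
    (fun v => by rw [hs1m]; exact hm 1 (by norm_num) v)
  obtain ⟨s2, hs2⟩ : ∃ s2, s2 = colorP.run w s1 := ⟨_, rfl⟩
  have f2r : ∀ j, colorP.wrR j = false → s2.r j = s1.r j :=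
    fun j hj => hs2 ▸ Prog.run_r w colorP j hj s1
  have f2m : ∀ j, colorP.wrA j = false → s2.m j = s1.m j :=
    fun j hj => hs2 ▸ Prog.run_m w colorP j hj s1
  rw [← hs2] at hcol
  obtain ⟨a, b, e, hab, habn, heA, heB, h3a, h4b, hMat⟩ := hSM w n l G s2 hw
    (by rw [f2r 0 rfl, hs1r 0 (by norm_num)]; exact hr0)
    (by rw [f2m 0 rfl, hs1m]; exact hm0) hcol.1 hcol.2
  obtain ⟨s3, hs3⟩ : ∃ s3, s3 = sizesP.run w s2 := ⟨_, rfl⟩
  have f3r : ∀ j, sizesP.wrR j = false → s3.r j = s2.r j :=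
    fun j hj => hs3 ▸ Prog.run_r w sizesP j hj s2
  rw [← hs3] at h3a h4b hMat
  obtain ⟨s4, hs4⟩ : ∃ s4, s4 = matP.run w s3 := ⟨_, rfl⟩
  have f4r : ∀ j, matP.wrR j = false → s4.r j = s3.r j :=
    fun j hj => hs4 ▸ Prog.run_r w matP j hj s3
  rw [← hs4] at hMat
  obtain ⟨s5, hs5⟩ : ∃ s5, s5 = constP.run w s4 := ⟨_, rfl⟩
  have f5r : ∀ j, constP.wrR j = false → s5.r j = s4.r j :=
    fun j hj => hs5 ▸ Prog.run_r w constP j hj s4
  have f5m : ∀ j, constP.wrA j = false → s5.m j = s4.m j :=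
    fun j hj => hs5 ▸ Prog.run_m w constP j hj s4
  obtain ⟨s6, hs6⟩ : ∃ s6, s6 = app1P.run w s5 := ⟨_, rfl⟩
  have f6r : ∀ j, app1P.wrR j = false → s6.r j = s5.r j :=
    fun j hj => hs6 ▸ Prog.run_r w app1P j hj s5
  have f6m : ∀ j, app1P.wrA j = false → s6.m j = s5.m j :=
    fun j hj => hs6 ▸ Prog.run_m w app1P j hj s5
  obtain ⟨s7, hs7⟩ : ∃ s7, s7 = app2P.run w s6 := ⟨_, rfl⟩
  have f7r : ∀ j, app2P.wrR j = false → s7.r j = s6.r j :=
    fun j hj => hs7 ▸ Prog.run_r w app2P j hj s6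
  have hr30 : s3.r 0 = n := by rw [f3r 0 rfl, f2r 0 rfl, hs1r 0 (by norm_num)]; exact hr0
  have hr35 : s3.r 5 = ((l / 2 : ℕ) : ℤ) := by rw [f3r 5 rfl, f2r 5 rfl]; exact h5
  -- the number of operations as a sum
  have hTT1 : mainP.time w s0 = 4 + ((3 + 1 + (if (Expr.mod (.reg 1) (.const 2)).eval s1 <
      (Expr.const 1).eval s1 then (seqs [colorP, sizesP,
      .ite (.reg 3) (.reg 5) .skip (seqs [matP, constP, app1P, app2P, finalP])]).time w s1
      else 1) + 1) + 1 + 1) + 1 := by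
    subst hs1; rfl
  have hTT2 : (seqs [colorP, sizesP,
      .ite (.reg 3) (.reg 5) .skip (seqs [matP, constP, app1P, app2P, finalP])]).time w s1 =
      colorP.time w s1 + (sizesP.time w s2 + ((1 + 1 + (if s3.r 3 < s3.r 5 then 1 else
        matP.time w s3 + (constP.time w s4 + (app1P.time w s5 + (app2P.time w s6 +
        (finalP.time w s7 + 1 + 1) + 1) + 1) + 1) + 1) + 1) + 1 + 1) + 1) + 1 := by
    subst hs7; subst hs6; subst hs5; subst hs4; subst hs3; subst hs2; rfl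
  have hT : mainP.time w s0 ≤ 30 + colorP.time w s1 + sizesP.time w s2 +
      (if s3.r 3 < s3.r 5 then 0 else matP.time w s3 + constP.time w s4 + app1P.time w s5 +
        app2P.time w s6 + finalP.time w s7) := by
    rw [hTT1, hTT2]
    split_ifs <;> omega
  have hN1 : (1 : ℝ) ≤ (n : ℝ) + 1 := by have : (0 : ℝ) ≤ n := Nat.cast_nonneg n; linarith
  have hE1 : (1 : ℝ) ≤ (1.97 : ℝ) ^ n := one_le_pow₀ (by norm_num)
  obtain ⟨N, hN⟩ : ∃ N : ℝ, N = (n : ℝ) + 1 := ⟨_, rfl⟩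
  obtain ⟨E, hE⟩ : ∃ E : ℝ, E = (1.97 : ℝ) ^ n := ⟨_, rfl⟩
  rw [← hN, ← hE]
  rw [← hN] at hN1
  rw [← hE] at hE1
  have hpow : ∀ i : ℕ, i ≤ d1 + d2 + d3 → N ^ i ≤ N ^ (d1 + d2 + d3) := fun i hi =>
    pow_le_pow_right₀ hN1 hi
  obtain ⟨Q, hQ⟩ : ∃ Q : ℝ, Q = N ^ (d1 + d2 + d3) * E := ⟨_, rfl⟩
  have hQ1 : 1 ≤ Q := by
    rw [hQ]
    calc (1 : ℝ) = 1 * 1 := by norm_num
      _ ≤ N ^ (d1 + d2 + d3) * E := mul_le_mul (one_le_pow₀ hN1) hE1 (by norm_num)
          (by positivity)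
  have hpoly : ∀ t : ℕ, t ≤ C3 * (n + 1) ^ d3 → (t : ℝ) ≤ C3 * Q := by
    intro t ht
    have h1 : (t : ℝ) ≤ C3 * N ^ d3 := by
      rw [hN]
      exact_mod_cast ht
    refine h1.trans (mul_le_mul_of_nonneg_left ?_ (Nat.cast_nonneg _))
    rw [hQ]
    calc N ^ d3 = N ^ d3 * 1 := by ring
      _ ≤ N ^ (d1 + d2 + d3) * E := mul_le_mul (hpow d3 (by omega)) hE1 (by norm_num)
          (by positivity)
  have hexp : ∀ (C d : ℕ) (t x y : ℝ), d ≤ d1 + d2 + d3 → t ≤ C * N ^ d * (x + y) → x ≤ E →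
      y ≤ E → t ≤ 2 * C * Q := by
    intro C d t x y hd ht hx hy
    refine ht.trans ?_
    have hCN : (0 : ℝ) ≤ C * N ^ d := by positivity
    have hEE : (0 : ℝ) ≤ E + E := by linarith
    calc (C : ℝ) * N ^ d * (x + y) ≤ C * N ^ d * (E + E) :=
          mul_le_mul_of_nonneg_left (by linarith) hCN
      _ ≤ C * N ^ (d1 + d2 + d3) * (E + E) := by
          refine mul_le_mul_of_nonneg_right ?_ hEE
          exact mul_le_mul_of_nonneg_left (hpow d hd) (Nat.cast_nonneg _)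
      _ = 2 * C * Q := by rw [hQ]; ring
  have t1 := hpoly _ (hT3 w n s1 (by rw [hs1r 0 (by norm_num)]; exact hr0)).1
  have t2 := hpoly _ (hT3 w n s2 (by rw [f2r 0 rfl, hs1r 0 (by norm_num)]; exact hr0)).2.1
  have hfinal : (mainP.time w s0 : ℝ) ≤ (30 + 5 * C3 + 2 * C1 + 2 * C2) * Q := by
    by_cases hlt : s3.r 3 < s3.r 5
    · rw [if_pos hlt, Nat.add_zero] at hT
      have hT' : (mainP.time w s0 : ℝ) ≤ 30 + colorP.time w s1 + sizesP.time w s2 := by
        exact_mod_cast hT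
      have hC1 : (0 : ℝ) ≤ C1 * Q := by positivity
      have hC2 : (0 : ℝ) ≤ C2 * Q := by positivity
      have hC3 : (0 : ℝ) ≤ C3 * Q := by positivity
      nlinarith
    · rw [if_neg hlt] at hT
      have hka : l / 2 ≤ a := by
        rw [h3a, hr35] at hlt
        have : ¬ a < l / 2 := fun h => hlt (by exact_mod_cast h)
        omega
      have hb1 : 1 ≤ b := by omega
      have hT' : (mainP.time w s0 : ℝ) ≤ 30 + colorP.time w s1 + sizesP.time w s2 +
          (matP.time w s3 + constP.time w s4 + app1P.time w s5 +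
        app2P.time w s6 + finalP.time w s7) := by
        exact_mod_cast hT
      have t3 := hpoly _ ((hT3 w n s3 hr30).2.2.1 (by rw [h3a]; positivity)
        (by rw [h3a]; exact_mod_cast (by omega : a ≤ n)) (by rw [h4b]; positivity)
        (by rw [h4b]; exact_mod_cast (by omega : b ≤ n)))
      have t4 := hpoly _ ((hT3 w n s4 (by rw [f4r 0 rfl]; exact hr30)).2.2.2.1
        (by rw [f4r 4 rfl, h4b]; positivity)
        (by rw [f4r 4 rfl, h4b]; exact_mod_cast (by omega : b ≤ n))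
        (by rw [f4r 5 rfl, hr35]; positivity)
        (by rw [f4r 5 rfl, hr35]; exact_mod_cast (by omega : l / 2 ≤ n)))
      have hco := hCo w n a b (l / 2) s4 hw (by rw [f4r 0 rfl]; exact hr30)
        (by rw [f4r 3 rfl]; exact h3a) (by rw [f4r 4 rfl]; exact h4b)
        (by rw [f4r 5 rfl]; exact hr35) hka hab habn hb1 _ rfl
      rw [← hs5] at hco
      obtain ⟨c7, c12, c10, c11, c13, c14, c15, c17, c18, c6, cm4, cm5, cm7, cm6⟩ := hco
      have hctx : Ctx n a b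
          (fun i l => if G.Adj (e (Sum.inl i)) (e (Sum.inr l)) then (1 : ℤ) else 0) s5 := by
        refine ⟨?_, ?_, habn, hb1, c7, c12, c10, c11, c13, c15, ?_, ?_, cm4, cm5⟩
        · rw [f5r 3 rfl, f4r 3 rfl]; exact h3a
        · rw [f5r 4 rfl, f4r 4 rfl]; exact h4b
        · intro i h
          rw [f5m 3 rfl]
          exact hMat i h
        · intro i h
          by_cases hadj : G.Adj (e (Sum.inl i)) (e (Sum.inr h))
          · right; simp [hadj]
          · left; simp [hadj]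
      have hctx6 : Ctx n a b
          (fun i l => if G.Adj (e (Sum.inl i)) (e (Sum.inr l)) then (1 : ℤ) else 0) s6 := by
        refine ⟨?_, ?_, habn, hb1, ?_, ?_, ?_, ?_, ?_, ?_, ?_, hctx.hM01, ?_, ?_⟩
        · rw [f6r 3 rfl]; exact hctx.ha
        · rw [f6r 4 rfl]; exact hctx.hb
        · rw [f6r 7 rfl]; exact hctx.hz
        · rw [f6r 12 rfl]; exact hctx.ht
        · rw [f6r 10 rfl]; exact hctx.h10
        · rw [f6r 11 rfl]; exact hctx.h11
        · rw [f6r 13 rfl]; exact hctx.h13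
        · rw [f6r 15 rfl]; exact hctx.h15
        · rw [f6m 3 rfl]; exact hctx.hM
        · rw [f6m 4 rfl]; exact hctx.hP2
        · rw [f6m 5 rfl]; exact hctx.hP3
      obtain ⟨u₀, hu₀⟩ : ∃ u₀ : ℕ, u₀ = if 13 * a < 12 * b then a else 5 * a / 8 := ⟨_, rfl⟩
      rw [← hu₀] at c6
      have hu₀a : u₀ ≤ a := by rw [hu₀]; split_ifs <;> omega
      have h2a : (2 : ℝ) ^ a ≤ E := by
        rw [hE, ← habn]
        calc (2 : ℝ) ^ a ≤ ((1.97 : ℝ) ^ 2) ^ a := by
              refine pow_le_pow_left₀ (by norm_num) (by norm_num) a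
          _ = (1.97 : ℝ) ^ (2 * a) := by rw [← pow_mul]
          _ ≤ (1.97 : ℝ) ^ (a + b) := pow_le_pow_right₀ (by norm_num) (by omega)
      have hsum1 : ∑ r ∈ range (u₀ + 1), ((a.choose r * 3 ^ r : ℕ) : ℝ) ≤ E := by
        rw [hE, ← habn, hu₀]
        split_ifs with hc
        · refine le_trans (le_of_eq ?_) (hCt.2.1 a b hc)
          have hbt := add_pow (3 : ℝ) 1 a
          have h4 : (4 : ℝ) ^ a = (3 + 1) ^ a := by norm_num
          rw [h4, hbt]
          refine Finset.sum_congr rfl fun r _ => ?_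
          push_cast
          ring
        · exact hCt.1 a b hab
      have hsum2 : (∑ r ∈ Ioc u₀ a, (a.choose r : ℝ)) * 2 ^ b ≤ E := by
        rw [hE, ← habn, hu₀]
        split_ifs with hc
        · rw [Finset.Ioc_self, Finset.sum_empty, zero_mul]
          positivity
        · exact hCt.2.2 a b (by omega)
      have t5 : (app1P.time w s5 : ℝ) ≤ 2 * C1 * Q :=
        hexp C1 d1 _ _ _ (by omega) (by rw [hN]; exact hT1 w n a b u₀ _ s5 hw hctx c6 hu₀a)
          h2a hsum1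
      have t6 : (app2P.time w s6 : ℝ) ≤ 2 * C2 * Q :=
        hexp C2 d2 _ _ _ (by omega) (by
          rw [hN]
          exact hT2 w n a b u₀ (l / 2) _ s6 hw hctx6 (by rw [f6r 6 rfl]; exact c6)
            (by rw [f6r 5 rfl, f5r 5 rfl, f4r 5 rfl]; exact hr35) hka) h2a hsum2
      have t7 := hpoly _ ((hT3 w n s7 (by
        rw [f7r 0 rfl, f6r 0 rfl, f5r 0 rfl, f4r 0 rfl]; exact hr30)).2.2.2.2
        (by rw [f7r 17 rfl, f6r 17 rfl, c17]; exact_mod_cast (by omega : l / 2 + 1 ≤ n + 1)))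
      linarith
  calc (mainP.time w s0 : ℝ) ≤ (30 + 5 * C3 + 2 * C1 + 2 * C2) * Q := hfinal
    _ = ((30 + 5 * C3 + 2 * C1 + 2 * C2 : ℕ) : ℝ) * N ^ (d1 + d2 + d3) * E := by
        rw [hQ]; push_cast; ring

end Pool.Agent.Lib.MP_b2ebfc_lc
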