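import Pool.Agent.Lib.MP_b2ebfc_lc.Assemble

/-!
# The output of the program
-/

set_option autoImplicit false

namespace Pool.Agent.Lib.MP_b2ebfc_lc

open Finset

theorem copyCount_le {n l : ℕ} (G : SimpleGraph (Fin n)) (hl : l ≤ n) :
    (G.copyCount (SimpleGraph.cycleGraph l) : ℤ) < 2 ^ wordLen n := by
  classical
  have h1 : G.copyCount (SimpleGraph.cycleGraph l) ≤ n ^ n := by
    refine SimpleGraph.copyCount_le_labelledCopyCount.trans ?_
    unfold SimpleGraph.labelledCopyCount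
    have h2 : Fintype.card ((SimpleGraph.cycleGraph l).Copy G) ≤ Fintype.card (Fin l → Fin n) := by
      refine Fintype.card_le_of_injective (fun f => (f : Fin l → Fin n)) ?_
      intro f g hfg
      exact DFunLike.coe_injective hfg
    have h3 : Fintype.card (Fin l → Fin n) = n ^ l := by simp
    have h4 : n ^ l ≤ n ^ n := by
      rcases Nat.eq_zero_or_pos n with h0 | h0
      · subst h0; interval_cases l; rfl
      · exact Nat.pow_le_pow_right h0 hl
    convert h2.trans (h3.le.trans h4)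
  have h5 : n ^ n < 2 ^ wordLen n := by
    calc n ^ n ≤ (2 ^ n) ^ n := Nat.pow_le_pow_left (Nat.lt_two_pow_self).le n
      _ = 2 ^ (n * n) := by rw [← pow_mul]
      _ < 2 ^ wordLen n := by
        refine Nat.pow_lt_pow_right (by norm_num) ?_
        unfold wordLen
        have h6 : n * n ≤ (n + 2) ^ 2 := by nlinarith
        have h7 : 1 ≤ (n + 2) ^ 2 := Nat.one_le_pow _ _ (by omega)
        calc n * n < 8 * ((n + 2) ^ 2 * 1) := by omega
          _ ≤ 8 * ((n + 2) ^ 2 * (n + 2) ^ 2) := by gcongr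
          _ = 8 * (n + 2) ^ 4 := by ring
  exact_mod_cast lt_of_le_of_lt h1 h5

theorem wordLen_ge (n : ℕ) : n + 2 ≤ wordLen n := by
  unfold wordLen
  have h7 : 1 ≤ (n + 2) ^ 3 := Nat.one_le_pow _ _ (by omega)
  calc n + 2 ≤ 8 * ((n + 2) * 1) := by omega
    _ ≤ 8 * ((n + 2) * (n + 2) ^ 3) := by gcongr
    _ = 8 * (n + 2) ^ 4 := by ring

theorem nat_mod_word {n x : ℕ} (hx : x ≤ n) : ((x : ℤ) % 2 ^ wordLen n) = x := by
  refine Int.emod_eq_of_lt (by positivity) ?_
  have h1 : x < 2 ^ wordLen n := by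
    calc x ≤ n := hx
      _ < 2 ^ n := Nat.lt_two_pow_self
      _ ≤ 2 ^ wordLen n := Nat.pow_le_pow_right (by norm_num) (by have := wordLen_ge n; omega)
  exact_mod_cast h1

/-- The output is the number of cycles. -/
theorem main_value (hCan : CancelStatement) (hCyc : CyclesStatement) (hOdd : OddStatement)
    (hG : GramStatement) (hA : App1Statement)
    (hB : BoundStatement) (hD : DigitsStatement) (hK : KronStatement)
    (h1P : App1PStatement) (h2P : App2PStatement) (hF : FinalPStatement)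
    (hCol : ColorPStatement) (hSM : SizeMatStatement) (hCo : ConstPStatement)
    (n : ℕ) (G : SimpleGraph (Fin n)) [DecidableRel G.Adj] (h2 : G.Colorable 2) (l : ℕ)
    (hl3 : 3 ≤ l) (hln : l ≤ n) :
    (mainP.run (wordLen n) (initSt n l G)).r 2 =
      (G.copyCount (SimpleGraph.cycleGraph l) : ℤ) := by
  obtain ⟨w, hw⟩ : ∃ w, w = wordLen n := ⟨_, rfl⟩
  rw [← hw]
  obtain ⟨s0, hs0⟩ : ∃ s0, s0 = initSt n l G := ⟨_, rfl⟩
  rw [← hs0]
  have hr0 : s0.r 0 = n := by rw [hs0]; rfl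
  have hr1 : s0.r 1 = l := by rw [hs0]; rfl
  have hr2 : s0.r 2 = 0 := by rw [hs0]; rfl
  have hm0 : s0.m 0 = (initSt n l G).m 0 := by rw [hs0]
  have hm : ∀ a, a ≠ 0 → ∀ v, s0.m a v = 0 := by
    intro a ha v; rw [hs0]; simp [initSt, ha]
  obtain ⟨s1, hs1⟩ : ∃ s1, s1 = s0.setR 5 ((Expr.div (.reg 1) (.const 2)).eval s0 % 2 ^ w) :=
    ⟨_, rfl⟩
  have hrun1 : mainP.run w s0 = if (Expr.mod (.reg 1) (.const 2)).eval s1 <
      (Expr.const 1).eval s1 then (seqs [colorP, sizesP,
      .ite (.reg 3) (.reg 5) .skip (seqs [matP, constP, app1P, app2P, finalP])]).run w s1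
      else s1 := by
    subst hs1; rfl
  rw [hrun1]
  have hs1r : ∀ j, j ≠ 5 → s1.r j = s0.r j := by intro j hj; rw [hs1]; simp [hj]
  have hs1m : s1.m = s0.m := by rw [hs1]; rfl
  have h5 : s1.r 5 = ((l / 2 : ℕ) : ℤ) := by
    rw [hs1]
    simp only [St.setR_r, if_true, Expr.eval, hr1]
    have : ((l : ℤ) / 2) = ((l / 2 : ℕ) : ℤ) := by norm_num
    rw [this, hw]
    exact nat_mod_word (by omega)
  have hcond : (Expr.mod (.reg 1) (.const 2)).eval s1 = ((l % 2 : ℕ) : ℤ) := by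
    simp only [Expr.eval]
    rw [hs1r 1 (by norm_num), hr1]
    norm_num
  have hcond1 : (Expr.const 1).eval s1 = 1 := rfl
  rw [hcond, hcond1]
  rcases Nat.even_or_odd l with he | ho
  swap
  · have hl1 : l % 2 = 1 := Nat.odd_iff.mp ho
    rw [hl1, if_neg (by norm_num), hs1r 2 (by norm_num), hr2,
      hOdd (Fin n) G h2 l hl3 ho]
    rfl
  have hl0 : l % 2 = 0 := Nat.even_iff.mp he
  rw [hl0, if_pos (by norm_num)]
  obtain ⟨k, hk⟩ : ∃ k, l = 2 * k := ⟨l / 2, by omega⟩
  have hk2 : 2 ≤ k := by omega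
  have hlk : l / 2 = k := by omega
  rw [hlk] at h5
  -- colouring
  have hcol := hCol w n l G s1 (by rw [hw]; have := wordLen_ge n; omega) h2
    (by rw [hs1r 0 (by norm_num)]; exact hr0) (by rw [hs1m]; exact hm0)
    (fun v => by rw [hs1m]; exact hm 1 (by norm_num) v)
  obtain ⟨s2, hs2⟩ : ∃ s2, s2 = colorP.run w s1 := ⟨_, rfl⟩
  have f2r : ∀ j, colorP.wrR j = false → s2.r j = s1.r j :=
    fun j hj => hs2 ▸ Prog.run_r w colorP j hj s1
  have f2m : ∀ j, colorP.wrA j = false → s2.m j = s1.m j :=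
    fun j hj => hs2 ▸ Prog.run_m w colorP j hj s1
  rw [← hs2] at hcol
  obtain ⟨a, b, e, hab, habn, heA, heB, h3a, h4b, hMat⟩ := hSM w n l G s2 hw
    (by rw [f2r 0 rfl, hs1r 0 (by norm_num)]; exact hr0)
    (by rw [f2m 0 rfl, hs1m]; exact hm0) hcol.1 hcol.2
  obtain ⟨s3, hs3⟩ : ∃ s3, s3 = sizesP.run w s2 := ⟨_, rfl⟩
  have f3r : ∀ j, sizesP.wrR j = false → s3.r j = s2.r j :=
    fun j hj => hs3 ▸ Prog.run_r w sizesP j hj s2
  have f3m : ∀ j, sizesP.wrA j = false → s3.m j = s2.m j :=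
    fun j hj => hs3 ▸ Prog.run_m w sizesP j hj s2
  rw [← hs3] at h3a h4b hMat
  have hrun2 : (seqs [colorP, sizesP,
      .ite (.reg 3) (.reg 5) .skip (seqs [matP, constP, app1P, app2P, finalP])]).run w s1 =
      if (Expr.reg 3).eval s3 < (Expr.reg 5).eval s3 then s3 else
        finalP.run w (app2P.run w (app1P.run w (constP.run w (matP.run w s3)))) := by
    subst hs3; subst hs2; rfl
  rw [hrun2]
  have h35 : s3.r 5 = k := by rw [f3r 5 rfl, f2r 5 rfl]; exact h5
  have hcyc := hCyc (Fin a) (Fin b) (Fin n) G e heA heB k hk2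
  rw [← hk] at hcyc
  have hev3 : (Expr.reg 3).eval s3 = a := h3a
  have hev5 : (Expr.reg 5).eval s3 = k := h35
  rw [hev3, hev5]
  by_cases hak : (a : ℤ) < k
  · rw [if_pos hak]
    have hak' : a < k := by exact_mod_cast hak
    have hzero : pairSum (fun i l => if G.Adj (e (Sum.inl i)) (e (Sum.inr l)) then (1 : ℤ) else 0)
        k = 0 := by
      unfold pairSum
      have : powersetCard k (univ : Finset (Fin a)) = ∅ :=
        Finset.powersetCard_eq_empty.mpr (by simpa using hak')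
      rw [this]
      simp
    rw [hzero] at hcyc
    rw [f3r 2 rfl, f2r 2 rfl, hs1r 2 (by norm_num), hr2]
    have : (G.copyCount (SimpleGraph.cycleGraph l) : ℤ) = 0 := by linarith
    rw [this]
  · rw [if_neg hak]
    have hka : k ≤ a := by
      have : ¬ a < k := fun h => hak (by exact_mod_cast h)
      omega
    obtain ⟨s4, hs4⟩ : ∃ s4, s4 = matP.run w s3 := ⟨_, rfl⟩
    have f4r : ∀ j, matP.wrR j = false → s4.r j = s3.r j :=
      fun j hj => hs4 ▸ Prog.run_r w matP j hj s3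
    have f4m : ∀ j, matP.wrA j = false → s4.m j = s3.m j :=
      fun j hj => hs4 ▸ Prog.run_m w matP j hj s3
    rw [← hs4] at hMat ⊢
    have hco := hCo w n a b k s4 hw
      (by rw [f4r 0 rfl, f3r 0 rfl, f2r 0 rfl, hs1r 0 (by norm_num)]; exact hr0)
      (by rw [f4r 3 rfl]; exact h3a) (by rw [f4r 4 rfl]; exact h4b)
      (by rw [f4r 5 rfl]; exact h35) hka hab habn (by omega) _ rfl
    obtain ⟨s5, hs5⟩ : ∃ s5, s5 = constP.run w s4 := ⟨_, rfl⟩
    have f5r : ∀ j, constP.wrR j = false → s5.r j = s4.r j :=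
      fun j hj => hs5 ▸ Prog.run_r w constP j hj s4
    have f5m : ∀ j, constP.wrA j = false → s5.m j = s4.m j :=
      fun j hj => hs5 ▸ Prog.run_m w constP j hj s4
    rw [← hs5] at hco ⊢
    obtain ⟨c7, c12, c10, c11, c13, c14, c15, c17, c18, c6, cm4, cm5, cm7, cm6⟩ := hco
    have hctx : Ctx n a b
        (fun i l => if G.Adj (e (Sum.inl i)) (e (Sum.inr l)) then (1 : ℤ) else 0) s5 := by
      refine ⟨?_, ?_, habn, by omega, c7, c12, c10, c11, c13, c15, ?_, ?_, cm4, cm5⟩
      · rw [f5r 3 rfl, f4r 3 rfl]; exact h3a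
      · rw [f5r 4 rfl, f4r 4 rfl]; exact h4b
      · intro i h
        rw [f5m 3 rfl]
        exact hMat i h
      · intro i h
        by_cases hadj : G.Adj (e (Sum.inl i)) (e (Sum.inr h))
        · right; simp [hadj]
        · left; simp [hadj]
    have hzeros : ∀ j, colorP.wrA j = false → sizesP.wrA j = false → matP.wrA j = false →
        constP.wrA j = false → j ≠ 0 → ∀ r : ℕ, s5.m j r = 0 := by
      intro j h1 h2' h3 h4 h5' r
      rw [f5m j h4, f4m j h3, f3m j h2', f2m j h1, hs1m]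
      exact hm j h5' r
    have hcw : (G.copyCount (SimpleGraph.cycleGraph l) : ℤ) < 2 ^ w := by
      rw [hw]; exact copyCount_le G hln
    have hc0 : (0 : ℤ) ≤ (G.copyCount (SimpleGraph.cycleGraph l) : ℤ) := Int.natCast_nonneg _
    refine core_value hCan hG hA hB hD hK h1P h2P hF w n a b k
      (if 13 * a < 12 * b then a else 5 * a / 8)
      (fun i l => if G.Adj (e (Sum.inl i)) (e (Sum.inr l)) then (1 : ℤ) else 0) s5
      (G.copyCount (SimpleGraph.cycleGraph l) : ℤ) hw hctx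
      (by rw [f5r 5 rfl, f4r 5 rfl]; exact h35) c17 c18 c6 ?_ (by omega) hka hab cm7 cm6
      (hzeros 14 rfl rfl rfl rfl (by norm_num)) (hzeros 15 rfl rfl rfl rfl (by norm_num))
      (hzeros 18 rfl rfl rfl rfl (by norm_num)) hcyc hc0 hcw
    split_ifs
    · exact le_rfl
    · omega

end Pool.Agent.Lib.MP_b2ebfc_lc
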