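import Pool.Agent.Lib.MP_b2ebfc_lc.Iface

/-!
# From the accumulators to `N(j,u)`
-/

set_option autoImplicit false

namespace Pool.Agent.Lib.MP_b2ebfc_lc

open Finset

theorem perm_eq_zero_of_card_ne {α β R : Type*} [DecidableEq α] [DecidableEq β] [CommRing R]
    (M : α → β → R) (U : Finset α) (W : Finset β) (h : U.card ≠ W.card) : perm M U W = 0 := by
  unfold perm
  have : IsEmpty (U ≃ W) := ⟨fun e => h (Finset.card_eq_of_equiv e)⟩
  simp

/-- Two words that agree modulo `2^w` are equal. -/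
theorem word_eq (w : ℕ) (x y : ℤ) (hx0 : 0 ≤ x) (hx : x < 2 ^ w) (hy0 : 0 ≤ y) (hy : y < 2 ^ w)
    (h : ((x : ℤ) : ZMod (2 ^ w)) = ((y : ℤ) : ZMod (2 ^ w))) : x = y := by
  rw [ZMod.intCast_eq_intCast_iff'] at h
  push_cast at h
  rwa [Int.emod_eq_of_lt hx0 hx, Int.emod_eq_of_lt hy0 hy] at h

theorem digits' (hD : DigitsStatement) (z : ℤ) (hz : 0 < z) (m : ℕ) (c : ℕ → ℤ)
    (h0 : ∀ i < m, 0 ≤ c i) (h1 : ∀ i < m, c i < z) :
    (∀ i < m, ((∑ h ∈ range m, c h * z ^ h) / z ^ i) % z = c i) ∧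
    0 ≤ ∑ h ∈ range m, c h * z ^ h ∧ ∑ h ∈ range m, c h * z ^ h < z ^ m := by
  have key := hD z m (fun i => if i < m then c i else 0)
    (fun i => by
      split_ifs with h
      · exact h0 i h
      · exact le_rfl)
    (fun i => by
      split_ifs with h
      · exact h1 i h
      · exact hz)
  have hs : ∑ h ∈ range m, (if h < m then c h else 0) * z ^ h = ∑ h ∈ range m, c h * z ^ h :=
    Finset.sum_congr rfl fun h hh => by rw [if_pos (Finset.mem_range.mp hh)]
  simp only [hs] at key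
  refine ⟨fun i hi => ?_, key.2.1, key.2.2⟩
  rw [key.1 i hi, if_pos hi]

/-- The coefficient number `h` of the accumulator of approach I. -/
noncomputable def cI {a b : ℕ} (M : Fin a → Fin b → ℤ) (r : ℕ) (q : Prop) [Decidable q] (h : ℕ) :
    ℤ :=
  ∑ P : Finset (Fin a), ∑ P' : Finset (Fin a),
    if (P ∪ P').card = r ∧ (Even (P.card + P'.card) ↔ q) then
      coefI M P P' (h / (b + 1)) (h % (b + 1)) else 0

theorem acc1_eq (hK : KronStatement) {a b : ℕ} (M : Fin a → Fin b → ℤ) (r : ℕ) (q : Prop)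
    [Decidable q] (z : ℤ) :
    ∑ P : Finset (Fin a), ∑ P' : Finset (Fin a),
      (if (P ∪ P').card = r ∧ (Even (P.card + P'.card) ↔ q) then detI M z P P' else 0) =
    ∑ h ∈ range ((b + 1) * (b + 1)), cI M r q h * z ^ h := by
  have h1 : ∀ P P' : Finset (Fin a),
      (if (P ∪ P').card = r ∧ (Even (P.card + P'.card) ↔ q) then detI M z P P' else 0) =
      ∑ h ∈ range ((b + 1) * (b + 1)),
        (if (P ∪ P').card = r ∧ (Even (P.card + P'.card) ↔ q) then
          coefI M P P' (h / (b + 1)) (h % (b + 1)) else 0) * z ^ h := by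
    intro P P'
    split_ifs with hc
    · rw [(hK a b M z).1 P P']
    · simp
  simp only [h1]
  simp only [cI, Finset.sum_mul]
  calc ∑ P : Finset (Fin a), ∑ P' : Finset (Fin a), ∑ h ∈ range ((b + 1) * (b + 1)),
        (if (P ∪ P').card = r ∧ (Even (P.card + P'.card) ↔ q) then
          coefI M P P' (h / (b + 1)) (h % (b + 1)) else 0) * z ^ h
      = ∑ P : Finset (Fin a), ∑ h ∈ range ((b + 1) * (b + 1)), ∑ P' : Finset (Fin a),
        (if (P ∪ P').card = r ∧ (Even (P.card + P'.card) ↔ q) then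
          coefI M P P' (h / (b + 1)) (h % (b + 1)) else 0) * z ^ h :=
        Finset.sum_congr rfl fun P _ => Finset.sum_comm
    _ = _ := Finset.sum_comm

theorem cI_bounds (hB : BoundStatement) {a b n : ℕ} (hn : a + b = n) (M : Fin a → Fin b → ℤ)
    (hM : ∀ i l, M i l = 0 ∨ M i l = 1) (r : ℕ) (q : Prop) [Decidable q] (h : ℕ)
    (hh : h < (b + 1) * (b + 1)) : 0 ≤ cI M r q h ∧ cI M r q h < zval n := by
  obtain ⟨h1, -, h2, -⟩ := hB (Fin a) (Fin b) M hM
  simp only [Fintype.card_fin] at h2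
  have hj : h / (b + 1) < b + 1 := Nat.div_lt_of_lt_mul hh
  have hu : h % (b + 1) < b + 1 := Nat.mod_lt _ (Nat.succ_pos b)
  refine ⟨Finset.sum_nonneg fun P _ => Finset.sum_nonneg fun P' _ => ?_, ?_⟩
  · split_ifs
    · exact h1 _ _ _ _
    · exact le_rfl
  · have h3 : cI M r q h ≤ ∑ P : Finset (Fin a), ∑ P' : Finset (Fin a), ∑ j ∈ range (b + 1),
        ∑ u ∈ range (b + 1), coefI M P P' j u := by
      refine Finset.sum_le_sum fun P _ => Finset.sum_le_sum fun P' _ => ?_
      have h4 : coefI M P P' (h / (b + 1)) (h % (b + 1)) ≤ ∑ j ∈ range (b + 1),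
          ∑ u ∈ range (b + 1), coefI M P P' j u :=
        (Finset.single_le_sum (f := fun u => coefI M P P' (h / (b + 1)) u)
          (fun u _ => h1 P P' _ u) (Finset.mem_range.mpr hu)).trans
          (Finset.single_le_sum (f := fun j => ∑ u ∈ range (b + 1), coefI M P P' j u)
            (fun j _ => Finset.sum_nonneg fun u _ => h1 P P' j u) (Finset.mem_range.mpr hj))
      split_ifs
      · exact h4
      · exact Finset.sum_nonneg fun j _ => Finset.sum_nonneg fun u _ => h1 P P' j u
    refine lt_of_le_of_lt h3 ?_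
    rw [hn] at h2
    exact h2

/-- The coefficient number `h` of the accumulator of approach II. -/
noncomputable def cII {a b : ℕ} (M : Fin a → Fin b → ℤ) (u : ℕ) (h : ℕ) : ℤ :=
  ∑ U ∈ powersetCard u (univ : Finset (Fin a)), ∑ W : Finset (Fin b),
    perm M U W ^ 2 * (if h % (b + 1) = 0 then coefII M U W (h / (b + 1)) else 0)

theorem acc2_eq (hK : KronStatement) {a b : ℕ} (M : Fin a → Fin b → ℤ) (u : ℕ) (z : ℤ) :
    ∑ U ∈ powersetCard u (univ : Finset (Fin a)), ∑ W : Finset (Fin b),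
      perm M U W ^ 2 * detII M z U W =
    ∑ h ∈ range ((b + 1) * (b + 1)), cII M u h * z ^ h := by
  have h1 : ∀ (U : Finset (Fin a)) (W : Finset (Fin b)),
      perm M U W ^ 2 * detII M z U W = ∑ h ∈ range ((b + 1) * (b + 1)),
        (perm M U W ^ 2 * (if h % (b + 1) = 0 then coefII M U W (h / (b + 1)) else 0)) * z ^ h := by
    intro U W
    rw [(hK a b M z).2 U W, Finset.mul_sum]
    exact Finset.sum_congr rfl fun h _ => by ring
  simp only [h1]
  simp only [cII, Finset.sum_mul]
  calc ∑ U ∈ powersetCard u (univ : Finset (Fin a)), ∑ W : Finset (Fin b),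
        ∑ h ∈ range ((b + 1) * (b + 1)),
        (perm M U W ^ 2 * (if h % (b + 1) = 0 then coefII M U W (h / (b + 1)) else 0)) * z ^ h
      = ∑ U ∈ powersetCard u (univ : Finset (Fin a)), ∑ h ∈ range ((b + 1) * (b + 1)),
        ∑ W : Finset (Fin b),
        (perm M U W ^ 2 * (if h % (b + 1) = 0 then coefII M U W (h / (b + 1)) else 0)) * z ^ h :=
        Finset.sum_congr rfl fun P _ => Finset.sum_comm
    _ = _ := Finset.sum_comm

theorem cII_bounds (hB : BoundStatement) {a b n : ℕ} (hn : a + b = n) (M : Fin a → Fin b → ℤ)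
    (hM : ∀ i l, M i l = 0 ∨ M i l = 1) (u : ℕ) (h : ℕ)
    (hh : h < (b + 1) * (b + 1)) : 0 ≤ cII M u h ∧ cII M u h < zval n := by
  obtain ⟨-, h1, -, h2⟩ := hB (Fin a) (Fin b) M hM
  simp only [Fintype.card_fin] at h2
  have hj : h / (b + 1) < b + 1 := Nat.div_lt_of_lt_mul hh
  have hnn : ∀ U W, 0 ≤ perm M U W ^ 2 *
      (if h % (b + 1) = 0 then coefII M U W (h / (b + 1)) else 0) := by
    intro U W
    refine mul_nonneg (sq_nonneg _) ?_
    split_ifs
    · exact h1 _ _ _
    · exact le_rfl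
  refine ⟨Finset.sum_nonneg fun P _ => Finset.sum_nonneg fun P' _ => hnn _ _, ?_⟩
  have h3 : cII M u h ≤ ∑ U : Finset (Fin a), ∑ W : Finset (Fin b), ∑ j ∈ range (b + 1),
        perm M U W ^ 2 * coefII M U W j := by
    have h5 : cII M u h ≤ ∑ U : Finset (Fin a), ∑ W : Finset (Fin b),
        perm M U W ^ 2 * (if h % (b + 1) = 0 then coefII M U W (h / (b + 1)) else 0) := by
      refine Finset.sum_le_sum_of_subset_of_nonneg (Finset.subset_univ _) fun U _ _ =>
        Finset.sum_nonneg fun W _ => hnn U W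
    refine h5.trans (Finset.sum_le_sum fun U _ => Finset.sum_le_sum fun W _ => ?_)
    split_ifs
    · exact Finset.single_le_sum (f := fun j => perm M U W ^ 2 * coefII M U W j)
          (fun j _ => mul_nonneg (sq_nonneg _) (h1 _ _ _)) (Finset.mem_range.mpr hj)
    · rw [mul_zero]
      exact Finset.sum_nonneg fun j _ => mul_nonneg (sq_nonneg _) (h1 _ _ _)
  refine lt_of_le_of_lt h3 ?_
  rw [hn] at h2
  exact h2

theorem zval_pos (n : ℕ) : 0 < zval n := by unfold zval; positivity

theorem zval_pow_le (n b : ℕ) (hb : b ≤ n) : zval n ^ ((b + 1) * (b + 1)) ≤ 2 ^ wordLen n := by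
  unfold zval wordLen
  rw [← pow_mul]
  refine pow_le_pow_right₀ (by norm_num) ?_
  have h1 : (b + 1) * (b + 1) ≤ (n + 2) ^ 2 := by nlinarith
  calc 8 * (n + 2) ^ 2 * ((b + 1) * (b + 1)) ≤ 8 * (n + 2) ^ 2 * (n + 2) ^ 2 :=
        Nat.mul_le_mul_left _ h1
    _ = 8 * (n + 2) ^ 4 := by ring

theorem zidx (b j u : ℕ) (hu : u ≤ b) :
    ((b + 1) * j + u) / (b + 1) = j ∧ ((b + 1) * j + u) % (b + 1) = u := by
  constructor
  · rw [Nat.mul_add_div (Nat.succ_pos b), Nat.div_eq_of_lt (by omega), Nat.add_zero]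
  · rw [Nat.mul_add_mod, Nat.mod_eq_of_lt (by omega)]

/-- The value of `N(j,u)` from approach I. -/
theorem bigN_of_cI (hA : App1Statement) {a b : ℕ} (M : Fin a → Fin b → ℤ) (j u : ℕ)
    (hju : j + u ≤ a) (hu : u ≤ b) :
    ∑ r ∈ range (u + 1), (((a - j - r).choose (u - r) : ℕ) : ℤ) *
      (cI M r True ((b + 1) * j + u) - cI M r False ((b + 1) * j + u)) = bigN M j u := by
  rw [hA (Fin a) (Fin b) M j u (by simpa using hju)]
  simp only [Fintype.card_fin]
  have h1 : ∀ r : ℕ, cI M r True ((b + 1) * j + u) - cI M r False ((b + 1) * j + u) =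
      ∑ P : Finset (Fin a), ∑ P' : Finset (Fin a),
        if (P ∪ P').card = r then (-1 : ℤ) ^ (P.card + P'.card) * coefI M P P' j u else 0 := by
    intro r
    simp only [cI, (zidx b j u hu).1, (zidx b j u hu).2, ← Finset.sum_sub_distrib]
    refine Finset.sum_congr rfl fun P _ => Finset.sum_congr rfl fun P' _ => ?_
    by_cases hr : (P ∪ P').card = r
    · rcases Nat.even_or_odd (P.card + P'.card) with he | ho
      · simp [hr, he, he.neg_one_pow]
      · have : ¬ Even (P.card + P'.card) := Nat.not_even_iff_odd.mpr ho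
        simp [hr, this, ho.neg_one_pow]
    · simp [hr]
  simp only [h1, Finset.mul_sum]
  rw [Finset.sum_comm]
  refine Finset.sum_congr rfl fun P _ => ?_
  rw [Finset.sum_comm]
  refine Finset.sum_congr rfl fun P' _ => ?_
  by_cases hc : (P ∪ P').card ≤ u
  · rw [if_pos hc, Finset.sum_eq_single ((P ∪ P').card)]
    · rw [if_pos rfl]; ring
    · intro r _ hr
      rw [if_neg (Ne.symm hr), mul_zero]
    · intro hr
      exact absurd (Finset.mem_range.mpr (by omega)) hr
  · rw [if_neg hc]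
    refine Finset.sum_eq_zero fun r hr => ?_
    rw [if_neg, mul_zero]
    have := Finset.mem_range.mp hr
    omega

/-- The value of `N(j,u)` from approach II. -/
theorem bigN_of_cII (hG : GramStatement) {a b : ℕ} (M : Fin a → Fin b → ℤ) (j u : ℕ) :
    cII M u ((b + 1) * j) = bigN M j u := by
  have hz := zidx b j 0 (Nat.zero_le b)
  simp only [Nat.add_zero] at hz
  unfold cII bigN
  refine Finset.sum_congr rfl fun U hU => ?_
  simp only [hz.1, hz.2, if_true]
  have hU' := (Finset.mem_powersetCard.mp hU).2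
  rw [← Finset.sum_subset (Finset.subset_univ (powersetCard u (univ : Finset (Fin b))))]
  · refine Finset.sum_congr rfl fun W _ => ?_
    congr 1
    unfold coefII
    rw [Finset.sum_comm]
    refine Finset.sum_congr rfl fun T hT => ?_
    rw [(hG (Fin a) (Fin b) M Uᶜ T).1, (Finset.mem_powersetCard.mp hT).2]
  · intro W _ hW
    have : U.card ≠ W.card := by
      intro h
      exact hW (Finset.mem_powersetCard.mpr ⟨Finset.subset_univ _, by omega⟩)
    rw [perm_eq_zero_of_card_ne M U W this]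
    simp

end Pool.Agent.Lib.MP_b2ebfc_lc
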